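import Pool.Agent.H97.FreeProb.Tree

/-!
# Measures with a prescribed R-transform: the atomic case
-/

open MeasureTheory Filter Topology Matrix
open scoped ENNReal

namespace Pool.Agent.H97.FreeProb

lemma exists_limit {L : ℝ} (P : ℕ → ProbabilityMeasure (Set.Icc (-L) L)) :
    ∃ (Q : ProbabilityMeasure (Set.Icc (-L) L)) (F : Ultrafilter ℕ), (F : Filter ℕ) ≤ atTop ∧
      Tendsto P F (𝓝 Q) := by
  refine ⟨(Ultrafilter.map P (hyperfilter ℕ)).lim, hyperfilter ℕ, ?_, ?_⟩
  · rw [← Nat.cofinite_eq_atTop]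
    exact hyperfilter_le_cofinite
  · exact Ultrafilter.le_nhds_lim (Ultrafilter.map P (hyperfilter ℕ))

/-- The Cauchy kernel as a continuous function. -/
noncomputable def kern {L : ℝ} (s : ℝ) (hs : L < |s|) :
    BoundedContinuousFunction (Set.Icc (-L) L) ℝ :=
  BoundedContinuousFunction.mkOfCompact ⟨fun t => 1 / (s - t.1), by
    apply Continuous.div continuous_const (by fun_prop)
    intro t h
    have : s = t.1 := by linarith
    have h2 := abs_le.mpr t.2
    rw [← this] at h2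
    linarith⟩

lemma kern_apply {L : ℝ} (s : ℝ) (hs : L < |s|) (t : Set.Icc (-L) L) :
    kern s hs t = 1 / (s - t.1) := rfl

lemma tendsto_cauchy {L : ℝ} {P : ℕ → ProbabilityMeasure (Set.Icc (-L) L)}
    {Q : ProbabilityMeasure (Set.Icc (-L) L)} {F : Ultrafilter ℕ}
    (h : Tendsto P F (𝓝 Q)) {s : ℝ} (hs : L < |s|) :
    Tendsto (fun n => ∫ t, 1 / (s - t.1) ∂(P n : Measure (Set.Icc (-L) L))) F
      (𝓝 (∫ t, 1 / (s - t.1) ∂(Q : Measure (Set.Icc (-L) L)))) :=
  (ProbabilityMeasure.tendsto_iff_forall_integral_tendsto.mp h) (kern s hs)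

lemma nonneg_of_tendsto {L : ℝ} {P : ℕ → ProbabilityMeasure (Set.Icc (-L) L)}
    {Q : ProbabilityMeasure (Set.Icc (-L) L)} {F : Ultrafilter ℕ}
    (h : Tendsto P F (𝓝 Q))
    (hP : ∀ᶠ n in (F : Filter ℕ), (P n : Measure (Set.Icc (-L) L)) {t | t.1 < 0} = 0) :
    (Q : Measure (Set.Icc (-L) L)) {t | t.1 < 0} = 0 := by
  set f : BoundedContinuousFunction (Set.Icc (-L) L) ℝ :=
    BoundedContinuousFunction.mkOfCompact ⟨fun t => max (-t.1) 0, by fun_prop⟩ with hf
  have hlim := (ProbabilityMeasure.tendsto_iff_forall_integral_tendsto.mp h) f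
  have hzero : ∀ᶠ n in (F : Filter ℕ), ∫ t, f t ∂(P n : Measure (Set.Icc (-L) L)) = 0 := by
    filter_upwards [hP] with n hn
    have hae : f =ᵐ[(P n : Measure (Set.Icc (-L) L))] 0 := by
      have : ∀ᵐ t ∂(P n : Measure (Set.Icc (-L) L)), ¬ t.1 < 0 := by
        rw [ae_iff]
        simpa using hn
      filter_upwards [this] with t ht
      change max (-t.1) 0 = 0
      rw [max_eq_right]
      linarith
    rw [integral_congr_ae hae]
    simp
  have h0 : ∫ t, f t ∂(Q : Measure (Set.Icc (-L) L)) = 0 := by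
    apply tendsto_nhds_unique hlim
    exact (tendsto_congr' hzero).mpr tendsto_const_nhds
  have hnn : 0 ≤ (f : Set.Icc (-L) L → ℝ) := fun t => le_max_right _ _
  rw [integral_eq_zero_iff_of_nonneg hnn (f.integrable _)] at h0
  have : {t : Set.Icc (-L) L | t.1 < 0} ⊆ {t | ¬ (f t = (0 : Set.Icc (-L) L → ℝ) t)} := by
    intro t ht
    simp only [Set.mem_ofPred_eq] at ht ⊢
    intro h1
    have h2 : max (-t.1) 0 = 0 := h1
    have h3 : -t.1 ≤ 0 := by rw [← h2]; exact le_max_left _ _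
    linarith
  exact measure_mono_null this (ae_iff.mp h0)

/-- The atomic case of the existence theorem. -/
theorem exists_atomic {ι : Type} [Fintype ι] (e x : ι → ℝ) (a B L : ℝ)
    (hx : ∀ i, |x i| ≤ B) (hB : 0 ≤ B) (hL : |a| + B + ∑ i, e i ^ 2 + 1 ≤ L) :
    ∃ P : ProbabilityMeasure (Set.Icc (-L) L),
      (∀ g : ℝ, g ≠ 0 → (∀ i, 1 - x i * g ≠ 0) → ∑ i, e i ^ 2 * (g / (1 - x i * g)) ^ 2 < 1 →
        L < |1 / g + a + ∑ i, e i ^ 2 * (g / (1 - x i * g))| →
        ∫ t, 1 / ((1 / g + a + ∑ i, e i ^ 2 * (g / (1 - x i * g))) - t.1)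
          ∂(P : Measure (Set.Icc (-L) L)) = g) ∧
      (∀ y : ℝ, 0 ≤ y → (∀ i, 0 < y + x i) → ∑ i, e i ^ 2 / (y + x i) ≤ a - y →
        (P : Measure (Set.Icc (-L) L)) {t | t.1 < 0} = 0) := by
  classical
  have hex : ∀ K : ℕ, ∃ P : ProbabilityMeasure (Set.Icc (-L) L),
      (∀ g : ℝ, g ≠ 0 → (∀ i, 1 - x i * g ≠ 0) →
        L < |1 / g + a + ∑ i, e i ^ 2 * (g / (1 - x i * g))| →
        |∫ t, 1 / ((1 / g + a + ∑ i, e i ^ 2 * (g / (1 - x i * g))) - t.1)
          ∂(P : Measure (Set.Icc (-L) L)) - g| ≤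
          Real.sqrt ((∑ i, e i ^ 2 * (g / (1 - x i * g)) ^ 2) ^ K *
          (g * ∑ i, e i ^ 2 * (g / (1 - x i * g))) ^ 2) /
            (|1 / g + a + ∑ i, e i ^ 2 * (g / (1 - x i * g))| - L)) ∧
      (∀ y : ℝ, 0 ≤ y → (∀ i, 0 < y + x i) → ∑ i, e i ^ 2 / (y + x i) ≤ a - y →
        (P : Measure (Set.Icc (-L) L)) {t | t.1 < 0} = 0) := by
    intro K
    obtain ⟨I, _, _, A, r, hA, hbd, hpos, hres⟩ := exists_tree e x a B L hx hB hL K
    obtain ⟨P, hP1, hP2⟩ := spectral_measure A hA r (L := L) (fun f => by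
      have := hbd f
      have h2 : 0 ≤ (B + 1) * f r ^ 2 := by positivity
      linarith)
    refine ⟨P, ?_, ?_⟩
    · intro g hg hgx hs
      obtain ⟨u, E, hur, hu, hE⟩ := hres g hg hgx
      have := hP1 _ u E hs hu
      rw [hur, hE] at this
      exact this
    · intro y hy hyx hya
      apply hP2
      intro f
      have := hpos y hyx hya f
      have h2 : 0 ≤ y * f r ^ 2 := by positivity
      linarith
  choose P hP1 hP2 using hex
  obtain ⟨Q, F, hF, hQ⟩ := exists_limit P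
  refine ⟨Q, ?_, ?_⟩
  · intro g hg hgx hq hs
    have h1 := tendsto_cauchy hQ hs
    apply tendsto_nhds_unique h1
    apply Tendsto.mono_left _ hF
    have h2 : Tendsto (fun K : ℕ => Real.sqrt ((∑ i, e i ^ 2 * (g / (1 - x i * g)) ^ 2) ^ K *
          (g * ∑ i, e i ^ 2 * (g / (1 - x i * g))) ^ 2) /
            (|1 / g + a + ∑ i, e i ^ 2 * (g / (1 - x i * g))| - L)) atTop (𝓝 0) := by
      have h3 : Tendsto (fun K : ℕ => (∑ i, e i ^ 2 * (g / (1 - x i * g)) ^ 2) ^ K *
          (g * ∑ i, e i ^ 2 * (g / (1 - x i * g))) ^ 2) atTop (𝓝 0) := by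
        have := (tendsto_pow_atTop_nhds_zero_of_lt_one
          (Finset.sum_nonneg fun i _ => mul_nonneg (sq_nonneg (e i))
            (sq_nonneg (g / (1 - x i * g)))) hq).mul_const
            ((g * ∑ i, e i ^ 2 * (g / (1 - x i * g))) ^ 2)
        rwa [zero_mul] at this
      have h4 := h3.sqrt.div_const (|1 / g + a + ∑ i, e i ^ 2 * (g / (1 - x i * g))| - L)
      rwa [Real.sqrt_zero, zero_div] at h4
    rw [tendsto_iff_dist_tendsto_zero]
    apply squeeze_zero (fun _ => dist_nonneg) _ h2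
    intro K
    rw [Real.dist_eq]
    exact hP1 K g hg hgx hs
  · intro y hy hyx hya
    exact nonneg_of_tendsto hQ (Eventually.of_forall fun n => hP2 n y hy hyx hya)

/-- The (standard) semicircle law, characterised by its Cauchy transform. -/
theorem exists_semicircle : ∃ P : ProbabilityMeasure (Set.Icc (-2 : ℝ) 2),
    ∀ g : ℝ, 0 < |g| → |g| < 1 →
      ∫ t, 1 / ((g + 1 / g) - t.1) ∂(P : Measure (Set.Icc (-2 : ℝ) 2)) = g := by
  obtain ⟨P, hP, _⟩ := exists_atomic (ι := Unit) (fun _ => 1) (fun _ => 0) 0 0 2 (by simp)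
    le_rfl (by norm_num)
  refine ⟨P, fun g hg hg1 => ?_⟩
  have hg0 : g ≠ 0 := by
    rintro rfl
    simp at hg
  have h1 := hP g hg0 (by simp)
  simp only [Finset.univ_unique, PUnit.default_eq_unit, one_pow, zero_mul, sub_zero, div_one,
    one_mul, Finset.sum_singleton, add_zero] at h1
  have hsq : g ^ 2 < 1 := by
    rw [← sq_abs]
    nlinarith [abs_nonneg g]
  have habs : 2 < |1 / g + g| := by
    have h2 : |1 / g + g| = (1 + g ^ 2) / |g| := by
      have : 1 / g + g = (1 + g ^ 2) / g := by field_simp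
      rw [this, abs_div, abs_of_pos (by positivity)]
    rw [h2, lt_div_iff₀ hg]
    have : g ^ 2 = |g| ^ 2 := (sq_abs g).symm
    rw [this]
    nlinarith [sq_nonneg (1 - |g|), sq_pos_of_ne_zero (sub_ne_zero.mpr hg1.ne')]
  have h3 := h1 hsq habs
  rwa [add_comm] at h3

end Pool.Agent.H97.FreeProb
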