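import Pool.Agent.H97.FreeProb.Atomic

/-!
# Measures with a prescribed R-transform: the general case
-/

open MeasureTheory Filter Topology
open scoped ENNReal

namespace Pool.Agent.H97.FreeProb

section rounding

variable {S : Type} [MeasurableSpace S] (θ : Measure S) [IsFiniteMeasure θ] {φ x : S → ℝ}

/-- rounding down to a multiple of `1 / (N + 1)` -/
noncomputable def rnd (N : ℕ) (t : ℝ) : ℝ := (⌊((N : ℝ) + 1) * t⌋ : ℝ) / (N + 1)

lemma rnd_le (N : ℕ) (t : ℝ) : rnd N t ≤ t := by
  unfold rnd
  rw [div_le_iff₀ (by positivity)]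
  have := Int.floor_le (((N : ℝ) + 1) * t)
  linarith

lemma lt_rnd (N : ℕ) (t : ℝ) : t - 1 / (N + 1) < rnd N t := by
  unfold rnd
  rw [lt_div_iff₀ (by positivity)]
  have := Int.lt_floor_add_one (((N : ℝ) + 1) * t)
  have h : (t - 1 / ((N : ℝ) + 1)) * ((N : ℝ) + 1) = t * (N + 1) - 1 := by
    field_simp
  rw [h]
  linarith

lemma rnd_tendsto (t : ℝ) : Tendsto (fun N : ℕ => rnd N t) atTop (𝓝 t) := by
  have h1 : Tendsto (fun N : ℕ => t - 1 / ((N : ℝ) + 1)) atTop (𝓝 (t - 0)) :=
    tendsto_const_nhds.sub tendsto_one_div_add_atTop_nhds_zero_nat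
  rw [sub_zero] at h1
  exact tendsto_of_tendsto_of_tendsto_of_le_of_le h1 tendsto_const_nhds
    (fun N => (lt_rnd N t).le) (fun N => rnd_le N t)

lemma rnd_measurable (N : ℕ) (hx : Measurable x) : Measurable (fun s => rnd N (x s)) := by
  unfold rnd
  fun_prop

/-- index set of the atoms -/
abbrev Atoms (N : ℕ) (lo hi : ℝ) : Type :=
  {i : ℤ // i ∈ Finset.Icc ⌊((N : ℝ) + 1) * lo⌋ ⌊((N : ℝ) + 1) * hi⌋}

/-- weight of an atom -/
noncomputable def wt (φ x : S → ℝ) (N : ℕ) (i : ℤ) : ℝ :=
  ∫ s in {s | ⌊((N : ℝ) + 1) * x s⌋ = i}, φ s ∂θ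

lemma sum_atoms (hφm : Measurable φ) (hxm : Measurable x) {lo hi Φ : ℝ}
    (hφ : ∀ s, 0 ≤ φ s ∧ φ s ≤ Φ) (hx : ∀ s, lo ≤ x s ∧ x s ≤ hi) (N : ℕ) (h : ℝ → ℝ) :
    ∑ i : Atoms N lo hi, wt θ φ x N i.1 * h ((i.1 : ℝ) / (N + 1)) =
      ∫ s, φ s * h (rnd N (x s)) ∂θ := by
  classical
  have hA : ∀ i : ℤ, MeasurableSet {s | ⌊((N : ℝ) + 1) * x s⌋ = i} := by
    intro i
    have : Measurable fun s => ⌊((N : ℝ) + 1) * x s⌋ := by fun_prop
    exact this (measurableSet_singleton i)
  have hint : Integrable φ θ := by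
    apply Integrable.of_bound hφm.aestronglyMeasurable Φ
    filter_upwards with s
    rw [Real.norm_eq_abs, abs_of_nonneg (hφ s).1]
    exact (hφ s).2
  have hpt : ∀ s, φ s * h (rnd N (x s)) = ∑ i : Atoms N lo hi,
      Set.indicator {s | ⌊((N : ℝ) + 1) * x s⌋ = i.1} φ s * h ((i.1 : ℝ) / (N + 1)) := by
    intro s
    have hmem : ⌊((N : ℝ) + 1) * x s⌋ ∈
        Finset.Icc ⌊((N : ℝ) + 1) * lo⌋ ⌊((N : ℝ) + 1) * hi⌋ := by
      rw [Finset.mem_Icc]
      constructor
      · apply Int.floor_mono
        exact mul_le_mul_of_nonneg_left (hx s).1 (by positivity)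
      · apply Int.floor_mono
        exact mul_le_mul_of_nonneg_left (hx s).2 (by positivity)
    rw [Finset.sum_eq_single ⟨_, hmem⟩]
    · rw [Set.indicator_of_mem (by simp)]
      rfl
    · rintro ⟨j, hj⟩ _ hne
      rw [Set.indicator_of_notMem, zero_mul]
      simp only [Set.mem_ofPred_eq]
      intro heq
      apply hne
      exact Subtype.ext heq.symm
    · intro hn
      exact absurd (Finset.mem_univ _) hn
  simp only [hpt]
  rw [integral_finset_sum]
  · apply Finset.sum_congr rfl
    intro i _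
    rw [integral_mul_const, integral_indicator (hA _)]
    rfl
  · intro i _
    exact (hint.indicator (hA _)).mul_const _

end rounding

lemma bound_frac {t g D : ℝ} (ht : |t| ≤ D) (hg : |g| * D ≤ 1 / 2) :
    1 / 2 ≤ 1 - t * g ∧ |g / (1 - t * g)| ≤ 2 * |g| := by
  have h1 : |t * g| ≤ 1 / 2 := by
    rw [abs_mul, mul_comm]
    exact (mul_le_mul_of_nonneg_left ht (abs_nonneg g)).trans hg
  have h2 : 1 / 2 ≤ 1 - t * g := by
    have := le_abs_self (t * g)
    linarith
  refine ⟨h2, ?_⟩
  rw [abs_div, abs_of_pos (show 0 < 1 - t * g by linarith), div_le_iff₀ (by linarith)]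
  nlinarith [abs_nonneg g]

/-- The existence theorem: for a finite measure `θ`, a bounded measurable density `φ ≥ 0` and a
bounded measurable `x` there is a compactly supported probability measure with R-transform
`a + ∫ φ(s) z / (1 - x(s) z) dθ(s)`. -/
theorem exists_measure {S : Type} [MeasurableSpace S] (θ : Measure S) [IsFiniteMeasure θ]
    (φ x : S → ℝ) (hφm : Measurable φ) (hxm : Measurable x) (lo hi Φ : ℝ)
    (hφ : ∀ s, 0 ≤ φ s ∧ φ s ≤ Φ) (hx : ∀ s, lo ≤ x s ∧ x s ≤ hi) (a : ℝ) :
    ∃ (L : ℝ) (Q : ProbabilityMeasure (Set.Icc (-L) L)) (δ : ℝ), 0 ≤ L ∧ 0 < δ ∧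
      (∀ g : ℝ, g ≠ 0 → |g| < δ →
        L < |1 / g + (a + ∫ s, φ s * (g / (1 - x s * g)) ∂θ)| ∧
        ∫ t, 1 / ((1 / g + (a + ∫ s, φ s * (g / (1 - x s * g)) ∂θ)) - t.1)
          ∂(Q : Measure (Set.Icc (-L) L)) = g) ∧
      (∀ y : ℝ, 0 ≤ y → 0 < y + lo → ∫ s, φ s / (y + x s) ∂θ < a - y →
        (Q : Measure (Set.Icc (-L) L)) {t | t.1 < 0} = 0) := by
  classical
  set B : ℝ := |lo| + |hi| + 1 with hBdef
  have hB : 0 ≤ B := by positivity
  set W : ℝ := ∫ s, φ s ∂θ with hWdef
  have hφint : Integrable φ θ := by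
    apply Integrable.of_bound hφm.aestronglyMeasurable Φ
    filter_upwards with s
    rw [Real.norm_eq_abs, abs_of_nonneg (hφ s).1]
    exact (hφ s).2
  have hW : 0 ≤ W := integral_nonneg fun s => (hφ s).1
  set L : ℝ := |a| + B + W + 1 with hLdef
  have hL0 : 0 ≤ L := by positivity
  -- the weights
  have hw0 : ∀ N (i : ℤ), 0 ≤ wt θ φ x N i := fun N i =>
    setIntegral_nonneg (by
      have : Measurable fun s => ⌊((N : ℝ) + 1) * x s⌋ := by fun_prop
      exact this (measurableSet_singleton i)) fun s _ => (hφ s).1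
  have hsumw : ∀ N, ∑ i : Atoms N lo hi, wt θ φ x N i.1 = W := by
    intro N
    have := sum_atoms θ hφm hxm hφ hx N (fun _ => 1)
    simpa using this
  have hatom : ∀ N (i : Atoms N lo hi), lo - 1 / ((N : ℝ) + 1) ≤ (i.1 : ℝ) / (N + 1) ∧
      (i.1 : ℝ) / (N + 1) ≤ hi := by
    rintro N ⟨i, hi'⟩
    rw [Finset.mem_Icc] at hi'
    have h1 : (⌊((N : ℝ) + 1) * lo⌋ : ℝ) ≤ i := by exact_mod_cast hi'.1
    have h2 : (i : ℝ) ≤ ⌊((N : ℝ) + 1) * hi⌋ := by exact_mod_cast hi'.2
    have h3 := Int.lt_floor_add_one (((N : ℝ) + 1) * lo)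
    have h4 := Int.floor_le (((N : ℝ) + 1) * hi)
    constructor
    · rw [le_div_iff₀ (by positivity)]
      have h : (lo - 1 / ((N : ℝ) + 1)) * ((N : ℝ) + 1) = lo * (N + 1) - 1 := by
        field_simp
      rw [h]
      linarith
    · rw [div_le_iff₀ (by positivity)]
      linarith
  have hN1 : ∀ N : ℕ, 1 / ((N : ℝ) + 1) ≤ 1 := by
    intro N
    rw [div_le_one (by positivity)]
    have : (0 : ℝ) ≤ N := by positivity
    linarith
  have hatomB : ∀ N (i : Atoms N lo hi), |(i.1 : ℝ) / (N + 1)| ≤ B := by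
    intro N i
    obtain ⟨h1, h2⟩ := hatom N i
    have := hN1 N
    have h3 := neg_abs_le lo
    have h4 := le_abs_self hi
    have h5 := abs_nonneg lo
    have h6 := abs_nonneg hi
    rw [abs_le]
    constructor <;> linarith
  have hrndB : ∀ N s, |rnd N (x s)| ≤ B := by
    intro N s
    have h1 := rnd_le N (x s)
    have h2 := lt_rnd N (x s)
    have := hN1 N
    have h3 := neg_abs_le lo
    have h4 := le_abs_self hi
    have h5 := abs_nonneg lo
    have h6 := abs_nonneg hi
    have h7 := hx s
    rw [abs_le]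
    constructor <;> linarith
  have hxB : ∀ s, |x s| ≤ B := by
    intro s
    have h3 := neg_abs_le lo
    have h4 := le_abs_self hi
    have h5 := abs_nonneg lo
    have h6 := abs_nonneg hi
    have h7 := hx s
    rw [abs_le]
    constructor <;> linarith
  -- the approximating measures
  have hex := fun N : ℕ => exists_atomic (ι := Atoms N lo hi)
    (fun i => Real.sqrt (wt θ φ x N i.1)) (fun i => (i.1 : ℝ) / (N + 1)) a B L (hatomB N) hB
    (by
      have : ∀ i : Atoms N lo hi, Real.sqrt (wt θ φ x N i.1) ^ 2 = wt θ φ x N i.1 :=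
        fun i => Real.sq_sqrt (hw0 N i.1)
      simp only [this, hsumw]
      exact le_rfl)
  choose P hP1 hP2 using hex
  have hsq : ∀ N (i : Atoms N lo hi), Real.sqrt (wt θ φ x N i.1) ^ 2 = wt θ φ x N i.1 :=
    fun N i => Real.sq_sqrt (hw0 N i.1)
  simp only [hsq] at hP1 hP2
  obtain ⟨Q, F, hF, hQ⟩ := exists_limit P
  -- choice of δ
  set δ : ℝ := 1 / (2 * (B + 1) + 4 * (W + 1) + L + |a| + 2) with hδdef
  have hden : 0 < 2 * (B + 1) + 4 * (W + 1) + L + |a| + 2 := by positivity
  have hδ : 0 < δ := by positivity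
  -- consequences of `|g| < δ`
  have hgfacts : ∀ g : ℝ, |g| < δ → |g| * B ≤ 1 / 2 ∧ |g| * (W + 1) ≤ 1 / 4 ∧
      (g ≠ 0 → L + |a| + 2 < |1 / g|) := by
    intro g hg
    have h1 : |g| * (2 * (B + 1) + 4 * (W + 1) + L + |a| + 2) < 1 := by
      rw [hδdef, lt_div_iff₀ hden] at hg
      exact hg
    have h0 := abs_nonneg g
    have ha := abs_nonneg a
    have b1 := mul_nonneg h0 hB
    have b2 := mul_nonneg h0 hW
    have b3 := mul_nonneg h0 hL0
    have b4 := mul_nonneg h0 ha
    refine ⟨by nlinarith, by nlinarith, fun hg0 => ?_⟩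
    have hgpos : 0 < |g| := abs_pos.mpr hg0
    rw [abs_div, abs_one, lt_div_iff₀ hgpos]
    nlinarith [mul_nonneg h0 hB, mul_nonneg h0 hW, mul_nonneg h0 hL0, mul_nonneg h0 ha]
  -- bounds for integrals
  have hIbound : ∀ g : ℝ, |g| < δ → ∀ z : S → ℝ, (∀ s, |z s| ≤ B) → Measurable z →
      |∫ s, φ s * (g / (1 - z s * g)) ∂θ| ≤ 1 / 2 ∧
        ∫ s, φ s * (g / (1 - z s * g)) ^ 2 ∂θ < 1 := by
    intro g hg z hz hzm
    obtain ⟨h1, h2, _⟩ := hgfacts g hg
    have hb : ∀ s, |g / (1 - z s * g)| ≤ 2 * |g| := fun s => (bound_frac (hz s) h1).2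
    constructor
    · calc |∫ s, φ s * (g / (1 - z s * g)) ∂θ| ≤ ∫ s, φ s * (2 * |g|) ∂θ := by
            rw [← Real.norm_eq_abs]
            apply norm_integral_le_of_norm_le (hφint.mul_const _)
            filter_upwards with s
            rw [norm_mul, Real.norm_eq_abs, Real.norm_eq_abs, abs_of_nonneg (hφ s).1]
            exact mul_le_mul_of_nonneg_left (hb s) (hφ s).1
        _ = W * (2 * |g|) := by rw [integral_mul_const]
        _ ≤ 1 / 2 := by nlinarith [abs_nonneg g]
    · calc ∫ s, φ s * (g / (1 - z s * g)) ^ 2 ∂θ ≤ ∫ s, φ s * (2 * |g|) ^ 2 ∂θ := by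
            apply integral_mono_of_nonneg
            · filter_upwards with s
              exact mul_nonneg (hφ s).1 (sq_nonneg _)
            · exact hφint.mul_const _
            · filter_upwards with s
              apply mul_le_mul_of_nonneg_left _ (hφ s).1
              rw [← sq_abs (g / (1 - z s * g))]
              exact pow_le_pow_left₀ (abs_nonneg _) (hb s) 2
        _ = W * (2 * |g|) ^ 2 := by rw [integral_mul_const]
        _ < 1 := by
            have h0 := abs_nonneg g
            have h3 : |g| ≤ 1 / 4 := by nlinarith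
            nlinarith [mul_nonneg h0 h0, mul_nonneg hW h0]
  refine ⟨L, Q, δ, hL0, hδ, ?_, ?_⟩
  · intro g hg0 hg
    obtain ⟨hg1, hg2, hg3⟩ := hgfacts g hg
    have hg3 := hg3 hg0
    set R : ℝ := a + ∫ s, φ s * (g / (1 - x s * g)) ∂θ with hR
    set RN : ℕ → ℝ := fun N => a + ∫ s, φ s * (g / (1 - rnd N (x s) * g)) ∂θ with hRN
    have hsize : ∀ r : ℝ, |r| ≤ 1 / 2 → L + 1 < |1 / g + (a + r)| := by
      intro r hr
      have h1 := abs_sub_abs_le_abs_sub (1 / g) (-(a + r))
      rw [sub_neg_eq_add, abs_neg] at h1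
      have h2 := abs_add_le a r
      linarith
    have hRsize : L + 1 < |1 / g + R| := hsize _ (hIbound g hg x hxB hxm).1
    have hRNsize : ∀ N, L + 1 < |1 / g + RN N| := fun N =>
      hsize _ (hIbound g hg _ (hrndB N) (rnd_measurable N hxm)).1
    refine ⟨by linarith, ?_⟩
    -- the approximants
    have hPN : ∀ N, ∫ t, 1 / ((1 / g + RN N) - t.1) ∂(P N : Measure (Set.Icc (-L) L)) = g := by
      intro N
      have e1 : ∑ i : Atoms N lo hi, wt θ φ x N i.1 * (g / (1 - (i.1 : ℝ) / (N + 1) * g)) =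
          ∫ s, φ s * (g / (1 - rnd N (x s) * g)) ∂θ :=
        sum_atoms θ hφm hxm hφ hx N (fun t => g / (1 - t * g))
      have e2 : ∑ i : Atoms N lo hi, wt θ φ x N i.1 * (g / (1 - (i.1 : ℝ) / (N + 1) * g)) ^ 2 =
          ∫ s, φ s * (g / (1 - rnd N (x s) * g)) ^ 2 ∂θ :=
        sum_atoms θ hφm hxm hφ hx N (fun t => (g / (1 - t * g)) ^ 2)
      have h1 := hP1 N g hg0 (fun i => by
        have := (bound_frac (hatomB N i) hg1).1
        intro h0
        rw [h0] at this
        linarith)
      rw [e1, e2] at h1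
      have h2 := h1 (hIbound g hg _ (hrndB N) (rnd_measurable N hxm)).2 (by
        rw [add_assoc]
        have := hRNsize N
        simp only [hRN] at this
        linarith)
      rw [add_assoc] at h2
      exact h2
    -- convergence of the R-transforms
    have hRlim : Tendsto RN atTop (𝓝 R) := by
      apply Tendsto.const_add
      apply tendsto_integral_of_dominated_convergence (fun s => φ s * (2 * |g|))
      · intro N
        have := rnd_measurable N hxm
        fun_prop
      · exact hφint.mul_const _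
      · intro N
        filter_upwards with s
        rw [norm_mul, Real.norm_eq_abs, Real.norm_eq_abs, abs_of_nonneg (hφ s).1]
        exact mul_le_mul_of_nonneg_left (bound_frac (hrndB N s) hg1).2 (hφ s).1
      · filter_upwards with s
        apply Tendsto.const_mul
        apply Tendsto.div tendsto_const_nhds
        · exact tendsto_const_nhds.sub ((rnd_tendsto (x s)).mul_const g)
        · have := (bound_frac (hxB s) hg1).1
          intro h0
          rw [h0] at this
          linarith
    -- comparison of the kernels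
    have hcomp : ∀ N, |∫ t, 1 / ((1 / g + R) - t.1) ∂(P N : Measure (Set.Icc (-L) L)) - g| ≤
        |RN N - R| := by
      intro N
      have hi1 : Integrable (fun t : Set.Icc (-L) L => 1 / ((1 / g + R) - t.1))
          (P N : Measure (Set.Icc (-L) L)) :=
        (kern (1 / g + R) (by linarith)).integrable _
      have hi2 : Integrable (fun t : Set.Icc (-L) L => 1 / ((1 / g + RN N) - t.1))
          (P N : Measure (Set.Icc (-L) L)) :=
        (kern (1 / g + RN N) (by have := hRNsize N; linarith)).integrable _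
      have hdiff : ∫ t, 1 / ((1 / g + R) - t.1) ∂(P N : Measure (Set.Icc (-L) L)) - g =
          ∫ t : Set.Icc (-L) L, (1 / ((1 / g + R) - t.1) - 1 / ((1 / g + RN N) - t.1))
            ∂(P N : Measure (Set.Icc (-L) L)) := by
        rw [integral_sub hi1 hi2, hPN N]
      rw [hdiff, ← Real.norm_eq_abs]
      have hb : ∀ t : Set.Icc (-L) L,
          ‖1 / ((1 / g + R) - t.1) - 1 / ((1 / g + RN N) - t.1)‖ ≤ |RN N - R| := by
        intro t
        have ht := abs_le.mpr t.2
        have h1 : 1 ≤ |(1 / g + R) - t.1| := by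
          have := abs_sub_abs_le_abs_sub (1 / g + R) t.1
          linarith
        have h2 : 1 ≤ |(1 / g + RN N) - t.1| := by
          have := abs_sub_abs_le_abs_sub (1 / g + RN N) t.1
          have := hRNsize N
          linarith
        have hne1 : (1 / g + R) - t.1 ≠ 0 := by
          intro h0; rw [h0, abs_zero] at h1; linarith
        have hne2 : (1 / g + RN N) - t.1 ≠ 0 := by
          intro h0; rw [h0, abs_zero] at h2; linarith
        have h3 : 1 / ((1 / g + R) - t.1) - 1 / ((1 / g + RN N) - t.1) =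
            (RN N - R) / (((1 / g + R) - t.1) * ((1 / g + RN N) - t.1)) := by
          rw [div_sub_div _ _ hne1 hne2]
          congr 1
          ring
        rw [h3, Real.norm_eq_abs, abs_div, abs_mul]
        apply div_le_self (abs_nonneg _)
        nlinarith
      refine (norm_integral_le_of_norm_le_const (C := |RN N - R|)
        (Eventually.of_forall hb)).trans ?_
      simp
    have h1 := tendsto_cauchy hQ (s := 1 / g + R) (by linarith)
    apply tendsto_nhds_unique h1
    apply Tendsto.mono_left _ hF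
    rw [tendsto_iff_dist_tendsto_zero]
    have h2 : Tendsto (fun N => |RN N - R|) atTop (𝓝 0) := by
      have := (hRlim.sub_const R).abs
      simpa using this
    apply squeeze_zero (fun _ => dist_nonneg) _ h2
    intro N
    rw [Real.dist_eq]
    exact hcomp N
  · intro y hy hylo hyint
    apply nonneg_of_tendsto hQ
    apply hF
    -- for large `N` the criterion applies
    have hpos : ∀ᶠ N : ℕ in atTop, (y + lo) / 2 ≤ y + lo - 1 / ((N : ℝ) + 1) := by
      have : Tendsto (fun N : ℕ => y + lo - 1 / ((N : ℝ) + 1)) atTop (𝓝 (y + lo - 0)) :=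
        tendsto_const_nhds.sub tendsto_one_div_add_atTop_nhds_zero_nat
      rw [sub_zero] at this
      exact (this.eventually_const_lt (show (y + lo) / 2 < y + lo by linarith)).mono
        fun N hN => hN.le
    have hlim : Tendsto (fun N : ℕ => ∫ s, φ s * (1 / (y + rnd N (x s))) ∂θ) atTop
        (𝓝 (∫ s, φ s * (1 / (y + x s)) ∂θ)) := by
      apply tendsto_integral_filter_of_dominated_convergence (fun s => φ s * (2 / (y + lo)))
      · filter_upwards with N
        have := rnd_measurable N hxm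
        fun_prop
      · filter_upwards [hpos] with N hN
        filter_upwards with s
        have h1 := lt_rnd N (x s)
        have h2 := (hx s).1
        have h3 : (y + lo) / 2 ≤ y + rnd N (x s) := by linarith
        rw [norm_mul, Real.norm_eq_abs, Real.norm_eq_abs, abs_of_nonneg (hφ s).1]
        apply mul_le_mul_of_nonneg_left _ (hφ s).1
        rw [abs_of_nonneg (by apply div_nonneg zero_le_one; linarith)]
        rw [div_le_div_iff₀ (by linarith) hylo]
        linarith
      · exact hφint.mul_const _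
      · filter_upwards with s
        apply Tendsto.const_mul
        apply Tendsto.div tendsto_const_nhds
        · exact tendsto_const_nhds.add (rnd_tendsto (x s))
        · have := (hx s).1
          intro h0
          linarith
    have hyint' : ∫ s, φ s * (1 / (y + x s)) ∂θ < a - y := by
      have : (fun s => φ s * (1 / (y + x s))) = fun s => φ s / (y + x s) := by
        funext s; ring
      rw [this]
      exact hyint
    filter_upwards [hpos, hlim.eventually_lt_const hyint'] with N hN1 hN2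
    apply hP2 N y hy
    · intro i
      have := (hatom N i).1
      linarith
    · have e1 : ∑ i : Atoms N lo hi, wt θ φ x N i.1 * (1 / (y + (i.1 : ℝ) / (N + 1))) =
          ∫ s, φ s * (1 / (y + rnd N (x s))) ∂θ :=
        sum_atoms θ hφm hxm hφ hx N (fun t => 1 / (y + t))
      have e2 : ∑ i : Atoms N lo hi, wt θ φ x N i.1 / (y + (i.1 : ℝ) / (N + 1)) =
          ∑ i : Atoms N lo hi, wt θ φ x N i.1 * (1 / (y + (i.1 : ℝ) / (N + 1))) := by
        apply Finset.sum_congr rfl
        intro i _
        ring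
      rw [e2, e1]
      exact hN2.le

end Pool.Agent.H97.FreeProb
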