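import Pool.Agent.H97.FreeProb.Defs
import Pool.Agent.H97.FreeProb.Exist

/-!
# Basic facts: uniqueness of the R-transform, infinite divisibility from a family
-/

open MeasureTheory Filter Topology
open scoped ENNReal

namespace Pool.Agent.H97.FreeProb

/-- `K z = R z + 1 / z` is large near zero. -/
lemma large_right {R : ℝ → ℝ} (hR : ContinuousAt R 0) (A : ℝ) :
    ∀ᶠ z in 𝓝[>] (0 : ℝ), A < R z + 1 / z := by
  have h1 : Tendsto (fun z : ℝ => R z) (𝓝[>] 0) (𝓝 (R 0)) := hR.tendsto.mono_left nhdsWithin_le_nhds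
  have h2 : Tendsto (fun z : ℝ => 1 / z) (𝓝[>] 0) atTop := by
    simpa using tendsto_inv_nhdsGT_zero (𝕜 := ℝ)
  exact (h1.add_atTop h2).eventually_gt_atTop A

lemma large_left {R : ℝ → ℝ} (hR : ContinuousAt R 0) (A : ℝ) :
    ∀ᶠ z in 𝓝[<] (0 : ℝ), R z + 1 / z < A := by
  have h1 : Tendsto (fun z : ℝ => R z) (𝓝[<] 0) (𝓝 (R 0)) := hR.tendsto.mono_left nhdsWithin_le_nhds
  have h2 : Tendsto (fun z : ℝ => 1 / z) (𝓝[<] 0) atBot := by
    simpa using tendsto_inv_nhdsLT_zero (𝕜 := ℝ)
  exact (h1.add_atBot h2).eventually_lt_atBot A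

lemma cauchy_integrable {μ : Measure ℝ} {L x : ℝ} [IsProbabilityMeasure μ]
    (hL : μ (Set.Icc (-L) L)ᶜ = 0) (hx : L < |x|) : Integrable (fun t => 1 / (x - t)) μ := by
  apply Integrable.of_bound (C := 1 / (|x| - L))
  · exact (by fun_prop : Measurable fun t : ℝ => 1 / (x - t)).aestronglyMeasurable
  · have : ∀ᵐ t ∂μ, t ∈ Set.Icc (-L) L := by
      rw [ae_iff]; exact hL
    filter_upwards [this] with t ht
    have h1 := abs_le.mpr ht
    have h2 := abs_sub_abs_le_abs_sub x t
    rw [norm_div, norm_one, Real.norm_eq_abs]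
    apply one_div_le_one_div_of_le (by linarith)
    linarith

/-- The Cauchy transform is injective on each side of the support. -/
lemma cauchy_inj {μ : Measure ℝ} {L : ℝ} [IsProbabilityMeasure μ]
    (hL : μ (Set.Icc (-L) L)ᶜ = 0) {x y : ℝ} (hxy : (L < x ∧ L < y) ∨ (x < -L ∧ y < -L))
    (h : ∫ t, 1 / (x - t) ∂μ = ∫ t, 1 / (y - t) ∂μ) : x = y := by
  by_contra hne
  have hL' : ∀ᵐ t ∂μ, t ∈ Set.Icc (-L) L := by rw [ae_iff]; exact hL
  have hx : L < |x| := by
    rcases hxy with ⟨h1, _⟩ | ⟨h1, _⟩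
    · exact h1.trans_le (le_abs_self x)
    · have := neg_le_abs x; linarith
  have hy : L < |y| := by
    rcases hxy with ⟨_, h1⟩ | ⟨_, h1⟩
    · exact h1.trans_le (le_abs_self y)
    · have := neg_le_abs y; linarith
  have hi1 := cauchy_integrable hL hx
  have hi2 := cauchy_integrable hL hy
  have h0 : ∫ t, (1 / (x - t) - 1 / (y - t)) * (y - x) ∂μ = 0 := by
    rw [integral_mul_const, integral_sub hi1 hi2, h, sub_self, zero_mul]
  have hpos : ∀ᵐ t ∂μ, 0 < (1 / (x - t) - 1 / (y - t)) * (y - x) := by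
    filter_upwards [hL'] with t ht
    have h1 : 0 < (x - t) * (y - t) := by
      rcases hxy with ⟨h1, h2⟩ | ⟨h1, h2⟩
      · exact mul_pos (by linarith [ht.2]) (by linarith [ht.2])
      · exact mul_pos_of_neg_of_neg (by linarith [ht.1]) (by linarith [ht.1])
    have hx0 : x - t ≠ 0 := fun h0 => by rw [h0, zero_mul] at h1; exact lt_irrefl _ h1
    have hy0 : y - t ≠ 0 := fun h0 => by rw [h0, mul_zero] at h1; exact lt_irrefl _ h1
    have h2 : (1 / (x - t) - 1 / (y - t)) * (y - x) = (y - x) ^ 2 / ((x - t) * (y - t)) := by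
      field_simp
      ring
    rw [h2]
    have : y - x ≠ 0 := sub_ne_zero.mpr (Ne.symm hne)
    positivity
  have hint : Integrable (fun t => (1 / (x - t) - 1 / (y - t)) * (y - x)) μ :=
    (hi1.sub hi2).mul_const _
  have := (integral_eq_zero_iff_of_nonneg_ae (hpos.mono fun t ht => ht.le) hint).mp h0
  have hfalse : ∀ᵐ t ∂μ, False := by
    filter_upwards [this, hpos] with t h1 h2
    simp only [Pi.zero_apply] at h1
    rw [h1] at h2
    exact lt_irrefl _ h2
  rw [ae_iff] at hfalse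
  simp at hfalse

/-- Uniqueness of the R-transform near zero. -/
lemma IsRTransform.unique {μ : Measure ℝ} (hμ : IsCompactLaw μ) {R R' : ℝ → ℝ}
    (h : IsRTransform μ R) (h' : IsRTransform μ R') : ∀ᶠ z in 𝓝[≠] (0 : ℝ), R z = R' z := by
  obtain ⟨hp, L, hL⟩ := hμ
  have e := h.2
  have e' := h'.2
  rw [← nhdsLT_sup_nhdsGT, eventually_sup] at e e' ⊢
  constructor
  · filter_upwards [e.1, e'.1, large_left h.1 (-L), large_left h'.1 (-L)] with z h1 h2 h3 h4
    have := cauchy_inj hL (Or.inr ⟨h3, h4⟩) (h1.trans h2.symm)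
    linarith
  · filter_upwards [e.2, e'.2, large_right h.1 L, large_right h'.1 L] with z h1 h2 h3 h4
    have := cauchy_inj hL (Or.inl ⟨h3, h4⟩) (h1.trans h2.symm)
    linarith

lemma IsRTransform.congr {μ : Measure ℝ} {R R' : ℝ → ℝ} (h : IsRTransform μ R)
    (heq : ∀ᶠ z in 𝓝 (0 : ℝ), R z = R' z) : IsRTransform μ R' := by
  refine ⟨h.1.congr heq, ?_⟩
  filter_upwards [h.2, heq.filter_mono nhdsWithin_le_nhds] with z h1 h2
  rw [← h2]
  exact h1

lemma isCompactLaw_dirac : IsCompactLaw (Measure.dirac 0) := by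
  refine ⟨inferInstance, 0, ?_⟩
  rw [Measure.dirac_apply' _ (by measurability)]
  simp

lemma isRTransform_dirac : IsRTransform (Measure.dirac 0) (fun _ => 0) := by
  refine ⟨continuousAt_const, ?_⟩
  filter_upwards [self_mem_nhdsWithin] with z hz
  rw [integral_dirac]
  simp

/-- Infinite divisibility from a family of measures with proportional R-transforms. -/
theorem freeInfDiv_of_family {μ : Measure ℝ} {R : ℝ → ℝ} (hμ : IsCompactLaw μ)
    (hR : IsRTransform μ R)
    (hfam : ∀ c : ℝ, 0 < c → ∃ ρ, IsCompactLaw ρ ∧ IsRTransform ρ (fun z => c * R z)) :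
    FreeInfDiv μ := by
  intro n hn
  have hn0 : (0 : ℝ) < n := by exact_mod_cast hn
  obtain ⟨ν, hν, hνR⟩ := hfam (1 / n) (by positivity)
  refine ⟨ν, ?_⟩
  have key : ∀ k : ℕ, 1 ≤ k → ∀ ρ, IsCompactLaw ρ → IsRTransform ρ (fun z => (k / n : ℝ) * R z) →
      IsFreePow ν k ρ := by
    intro k hk
    induction k, hk using Nat.le_induction with
    | base =>
      intro ρ hρ hρR
      refine ⟨Measure.dirac 0, rfl, isCompactLaw_dirac, hν, hρ, _, _, isRTransform_dirac, hνR, ?_⟩
      refine hρR.congr (Eventually.of_forall fun z => ?_)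
      simp
    | succ k hk ih =>
      intro ρ hρ hρR
      have hk0 : (0 : ℝ) < k := by exact_mod_cast hk
      obtain ⟨σ, hσ, hσR⟩ := hfam (k / n) (by positivity)
      refine ⟨σ, ih σ hσ hσR, hσ, hν, hρ, _, _, hσR, hνR, ?_⟩
      refine hρR.congr (Eventually.of_forall fun z => ?_)
      push_cast
      ring
  apply key n hn μ hμ
  refine hR.congr (Eventually.of_forall fun z => ?_)
  rw [div_self hn0.ne', one_mul]

end Pool.Agent.H97.FreeProb
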