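import Mathlib

/-!
# Free convolutions of compactly supported probability measures: definitions

For compactly supported probability measures on `ℝ` the free additive convolution is the
operation that adds R-transforms, and, for measures on `[0, ∞)` other than `δ₀`, the free
multiplicative convolution is the operation that multiplies S-transforms (Voiculescu).
-/

open MeasureTheory Filter Topology
open scoped ENNReal

namespace Pool.Agent.H97.FreeProb

/-- A compactly supported Borel probability measure on `ℝ`. -/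
def IsCompactLaw (μ : Measure ℝ) : Prop :=
  IsProbabilityMeasure μ ∧ ∃ L : ℝ, μ (Set.Icc (-L) L)ᶜ = 0

/-- `R` is (near `0`) the R-transform of `μ`: it is continuous at `0`, and
`G_μ (R z + 1 / z) = z` for all small `z ≠ 0`, where `G_μ x = ∫ 1 / (x - t) dμ(t)`. -/
def IsRTransform (μ : Measure ℝ) (R : ℝ → ℝ) : Prop :=
  ContinuousAt R 0 ∧ ∀ᶠ z in 𝓝[≠] (0 : ℝ), ∫ t, 1 / ((R z + 1 / z) - t) ∂μ = z

/-- `ρ = μ ⊞ ν`, for compactly supported probability measures: R-transforms add up. -/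
def IsFreeAddConv (μ ν ρ : Measure ℝ) : Prop :=
  IsCompactLaw μ ∧ IsCompactLaw ν ∧ IsCompactLaw ρ ∧
    ∃ R₁ R₂ : ℝ → ℝ, IsRTransform μ R₁ ∧ IsRTransform ν R₂ ∧
      IsRTransform ρ (fun z => R₁ z + R₂ z)

/-- `ρ = μ^{⊞ n}`, the `n`-fold free additive convolution of `μ`. -/
def IsFreePow (μ : Measure ℝ) : ℕ → Measure ℝ → Prop
  | 0, ρ => ρ = Measure.dirac 0
  | n + 1, ρ => ∃ σ, IsFreePow μ n σ ∧ IsFreeAddConv σ μ ρ

/-- `μ` is `⊞`-infinitely divisible: for every `n ≥ 1` it is an `n`-fold free additive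
convolution power. -/
def FreeInfDiv (μ : Measure ℝ) : Prop :=
  ∀ n : ℕ, 1 ≤ n → ∃ ν, IsFreePow ν n μ

/-- `μ` is a compactly supported probability measure on `[0, ∞)` different from `δ₀`. -/
def IsPosLaw (μ : Measure ℝ) : Prop :=
  IsCompactLaw μ ∧ μ (Set.Iio 0) = 0 ∧ μ ≠ Measure.dirac 0

/-- `S` is (near `0`) the S-transform of `μ`: it is continuous at `0`, and
`ψ_μ ((z / (1 + z)) S z) = z` for all small `z`, where `ψ_μ y = ∫ y t / (1 - y t) dμ(t)`. -/
def IsSTransform (μ : Measure ℝ) (S : ℝ → ℝ) : Prop :=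
  ContinuousAt S 0 ∧ ∀ᶠ z in 𝓝 (0 : ℝ),
    ∫ t, (z / (1 + z) * S z) * t / (1 - (z / (1 + z) * S z) * t) ∂μ = z

/-- `ρ = μ ⊠ ν`, for compactly supported probability measures on `[0, ∞)` other than `δ₀`:
S-transforms multiply. -/
def IsFreeMulConv (μ ν ρ : Measure ℝ) : Prop :=
  IsPosLaw μ ∧ IsPosLaw ν ∧ IsPosLaw ρ ∧
    ∃ S₁ S₂ : ℝ → ℝ, IsSTransform μ S₁ ∧ IsSTransform ν S₂ ∧
      IsSTransform ρ (fun z => S₁ z * S₂ z)

/-- `μ` is free regular: it is `⊞`-infinitely divisible and its free Lévy-Khintchine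
representation has no semicircular part, a Lévy measure `ν` concentrated on `(0, ∞)` with
`∫ min(1, x) dν(x) < ∞`, and a drift `b ≥ 0`; that is, `R_μ z = b + ∫ x / (1 - z x) dν(x)`
(for small `z < 0`). -/
def FreeRegular (μ : Measure ℝ) : Prop :=
  FreeInfDiv μ ∧ ∃ (b : ℝ) (ν : Measure ℝ), 0 ≤ b ∧ ν (Set.Iic 0) = 0 ∧
    ∫⁻ x, ENNReal.ofReal (min 1 x) ∂ν < ∞ ∧
    ∃ R : ℝ → ℝ, IsRTransform μ R ∧ ∀ᶠ z in 𝓝[<] (0 : ℝ), R z = b + ∫ x, x / (1 - z * x) ∂ν

/-- `ρ = μ^{⊞ t}` for a real `t > 0`: the R-transform is multiplied by `t`. -/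
def IsFreeRealPow (μ : Measure ℝ) (t : ℝ) (ρ : Measure ℝ) : Prop :=
  IsCompactLaw ρ ∧ ∃ R : ℝ → ℝ, IsRTransform μ R ∧ IsRTransform ρ (fun z => t * R z)

/-- The other form of free regularity: `μ` is `⊞`-infinitely divisible and `μ^{⊞ t}` is carried
by `[0, ∞)` for every `t > 0`. -/
def FreeRegular' (μ : Measure ℝ) : Prop :=
  FreeInfDiv μ ∧ ∀ t : ℝ, 0 < t → ∃ ρ, IsFreeRealPow μ t ρ ∧ ρ (Set.Iio 0) = 0

end Pool.Agent.H97.FreeProb
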