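import Pool.Agent.H97.FreeProb.Law

/-!
# The example
-/

open MeasureTheory Filter Topology
open scoped ENNReal

namespace Pool.Agent.H97.FreeProb

/-- The `ψ`-transform in terms of the Cauchy transform. -/
lemma psi_of_cauchy {μ : Measure ℝ} {L K u : ℝ} [IsProbabilityMeasure μ]
    (hL : μ (Set.Icc (-L) L)ᶜ = 0) (hK : L < |K|) (hK0 : K ≠ 0)
    (h : ∫ t, 1 / (K - t) ∂μ = u) :
    ∫ t, (1 / K) * t / (1 - (1 / K) * t) ∂μ = u * K - 1 := by
  have hL' : ∀ᵐ t ∂μ, t ∈ Set.Icc (-L) L := by rw [ae_iff]; exact hL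
  have hi := cauchy_integrable hL hK
  have e : ∫ t, (1 / K) * t / (1 - (1 / K) * t) ∂μ = ∫ t, (K * (1 / (K - t)) - 1) ∂μ := by
    apply integral_congr_ae
    filter_upwards [hL'] with t ht
    have h1 : K - t ≠ 0 := by
      intro h0
      have h2 : K = t := by linarith
      rw [h2] at hK
      have := abs_le.mpr ht
      linarith
    have h2 : 1 - 1 / K * t = (K - t) / K := by
      field_simp
    rw [h2]
    field_simp
    ring
  rw [e, integral_sub (hi.const_mul K) (integrable_const 1), integral_const_mul, h]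
  simp
  ring

/-- A law with R-transform `R` has S-transform `1 / R (w z)`, where `w z` is the small solution of
`w R w = z`. -/
lemma isSTransform_of {μ : Measure ℝ} (hμ : IsCompactLaw μ) {R w : ℝ → ℝ}
    (hR : IsRTransform μ R) (hR0 : R 0 ≠ 0) (hw : Tendsto w (𝓝 0) (𝓝 0)) (hw0 : w 0 = 0)
    (hwz : ∀ᶠ z in 𝓝 (0 : ℝ), w z * R (w z) = z) : IsSTransform μ (fun z => 1 / R (w z)) := by
  obtain ⟨hp, L, hL⟩ := hμ
  constructor
  · have hc : ContinuousAt (fun z => R (w z)) 0 := by
      have h1 : ContinuousAt w 0 := by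
        unfold ContinuousAt
        rw [hw0]
        exact hw
      have h2 : ContinuousAt R (w 0) := by
        rw [hw0]
        exact hR.1
      exact ContinuousAt.comp h2 h1
    apply ContinuousAt.div continuousAt_const hc
    rw [hw0]
    exact hR0
  · have h1 : ∀ᶠ u in 𝓝 (0 : ℝ), u ≠ 0 → ∫ t, 1 / ((R u + 1 / u) - t) ∂μ = u :=
      eventually_nhdsWithin_iff.mp hR.2
    have h2 : ∀ᶠ u in 𝓝 (0 : ℝ), u ≠ 0 → |L| + 1 < |R u + 1 / u| := by
      have : ∀ᶠ u in 𝓝[≠] (0 : ℝ), |L| + 1 < |R u + 1 / u| := by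
        rw [← nhdsLT_sup_nhdsGT, eventually_sup]
        constructor
        · filter_upwards [large_left hR.1 (-(|L| + 1))] with z hz
          have := neg_abs_le (R z + 1 / z)
          linarith
        · filter_upwards [large_right hR.1 (|L| + 1)] with z hz
          exact hz.trans_le (le_abs_self _)
      exact eventually_nhdsWithin_iff.mp this
    filter_upwards [hw.eventually h1, hw.eventually h2, hwz] with z hz1 hz2 hz3
    by_cases hz0 : z = 0
    · subst hz0
      simp
    have hw0' : w z ≠ 0 := by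
      intro h0
      rw [h0, zero_mul] at hz3
      exact hz0 hz3.symm
    have hRz : R (w z) ≠ 0 := by
      intro h0
      rw [h0, mul_zero] at hz3
      exact hz0 hz3.symm
    have hG := hz1 hw0'
    have hK := hz2 hw0'
    set K : ℝ := R (w z) + 1 / w z with hKdef
    have hK0 : K ≠ 0 := by
      intro h0
      rw [h0, abs_zero] at hK
      have := abs_nonneg L
      linarith
    have hwK : w z * K = 1 + z := by
      rw [hKdef, mul_add, hz3]
      field_simp
      ring
    have h1z : 1 + z ≠ 0 := by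
      rw [← hwK]
      exact mul_ne_zero hw0' hK0
    have hy : z / (1 + z) * (1 / R (w z)) = 1 / K := by
      rw [← hwK]
      nth_rw 1 [← hz3]
      field_simp
    rw [hy, psi_of_cauchy hL (by have := le_abs_self L; linarith) hK0 hG, hwK]
    ring

section

variable (P : ProbabilityMeasure (Set.Icc (-2 : ℝ) 2))

/-- the point `0` -/
def zpt : Set.Icc (-2 : ℝ) 2 := ⟨0, by norm_num, by norm_num⟩

lemma sq_le_four (s : Set.Icc (-2 : ℝ) 2) : s.1 ^ 2 ≤ 4 := by
  have h1 := s.2.1
  have h2 := s.2.2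
  nlinarith

/-- The key computation. -/
theorem key_identity
    (hG : ∀ g : ℝ, 0 < |g| → |g| < 1 →
      ∫ t, 1 / ((g + 1 / g) - t.1) ∂(P : Measure (Set.Icc (-2 : ℝ) 2)) = g)
    (u R1 : ℝ) (hu : |u| ≤ 1)
    (hR1 : R1 = 4 - ∫ s, 1 / ((4 - s.1) + u) ∂(P : Measure (Set.Icc (-2 : ℝ) 2))) :
    3 ≤ R1 ∧ R1 = 4 - ((4 + u) - Real.sqrt ((4 + u) ^ 2 - 4)) / 2 ∧
      16 - ∫ s, 1 / ((1 - s.1 ^ 2 / 16) + u / R1)
        ∂((P : Measure (Set.Icc (-2 : ℝ) 2)) + Measure.dirac zpt) = R1 ^ 2 := by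
  obtain ⟨hu1, hu2⟩ := abs_le.mp hu
  set X : ℝ := 4 + u with hX
  have hX4 : 0 ≤ X ^ 2 - 4 := by nlinarith
  set r : ℝ := Real.sqrt (X ^ 2 - 4) with hr
  have hr0 : 0 ≤ r := Real.sqrt_nonneg _
  have hrsq : r ^ 2 = X ^ 2 - 4 := Real.sq_sqrt hX4
  have hrX : r < X := by nlinarith
  have hrX2 : X - 2 < r := by nlinarith
  set g : ℝ := (X - r) / 2 with hg
  have hg0 : 0 < g := by rw [hg]; linarith
  have hg1 : g < 1 := by rw [hg]; linarith
  have hgX : g + 1 / g = X := by
    have : g * (X + r) / 2 = 1 := by rw [hg]; nlinarith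
    have h1 : 1 / g = (X + r) / 2 := by
      rw [div_eq_iff hg0.ne']
      linarith
    rw [h1, hg]
    ring
  have hI : ∫ s, 1 / ((4 - s.1) + u) ∂(P : Measure (Set.Icc (-2 : ℝ) 2)) = g := by
    have := hG g (by rw [abs_of_pos hg0]; exact hg0) (by rw [abs_of_pos hg0]; exact hg1)
    rw [hgX] at this
    rw [← this]
    congr 1
    ext s
    rw [hX]
    ring
  have hR : R1 = 4 - g := by rw [hR1, hI]
  refine ⟨by linarith, hR, ?_⟩
  have hR0 : 0 < 4 - g := by linarith
  set w : ℝ := u / R1 with hw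
  have hu' : u = g + 1 / g - 4 := by rw [hgX, hX]; ring
  have h1w : 1 + w = 1 / (g * (4 - g)) := by
    rw [hw, hR, hu']
    field_simp
    ring
  have h1wpos : 0 < 1 + w := by rw [h1w]; positivity
  set b : ℝ := Real.sqrt (1 + w) with hb
  have hb0 : 0 < b := Real.sqrt_pos.mpr h1wpos
  have hbsq : b ^ 2 = 1 + w := Real.sq_sqrt h1wpos.le
  have hbsq' : b ^ 2 * (g * (4 - g)) = 1 := by
    rw [hbsq, h1w]
    field_simp
  set k : ℝ := b * g with hk
  have hk0 : 0 < k := mul_pos hb0 hg0
  have hk4 : k + 1 / k = 4 * b := by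
    have : k ≠ 0 := hk0.ne'
    have h2 : k * k + 1 = 4 * b * k := by
      rw [hk]
      nlinarith
    field_simp
    linarith
  have hk1 : k < 1 := by
    have h3 : k ^ 2 * (4 - g) = g := by
      rw [hk]
      have : (b * g) ^ 2 * (4 - g) = g * (b ^ 2 * (g * (4 - g))) := by ring
      rw [this, hbsq', mul_one]
    have h4 : k ^ 2 < 1 := by nlinarith
    nlinarith
  have hb2 : 2 < 4 * b := by
    rw [← hk4]
    have : 0 < (1 - k) ^ 2 := by
      have : 0 < 1 - k := by linarith
      positivity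
    rw [← sub_pos]
    have h5 : k + 1 / k - 2 = (1 - k) ^ 2 / k := by
      field_simp
      ring
    rw [h5]
    positivity
  have hJ1 : ∫ s, 1 / (4 * b - s.1) ∂(P : Measure (Set.Icc (-2 : ℝ) 2)) = k := by
    have := hG k (by rw [abs_of_pos hk0]; exact hk0) (by rw [abs_of_pos hk0]; exact hk1)
    rw [hk4] at this
    exact this
  have hJ2 : ∫ s, 1 / (4 * b + s.1) ∂(P : Measure (Set.Icc (-2 : ℝ) 2)) = k := by
    have := hG (-k) (by rw [abs_neg, abs_of_pos hk0]; exact hk0)
      (by rw [abs_neg, abs_of_pos hk0]; exact hk1)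
    have e : -k + 1 / -k = -(4 * b) := by
      rw [← hk4]
      field_simp
      ring
    rw [e] at this
    have e2 : ∀ s : Set.Icc (-2 : ℝ) 2, 1 / (-(4 * b) - s.1) = -(1 / (4 * b + s.1)) := by
      intro s
      have : -(4 * b) - s.1 = -(4 * b + s.1) := by ring
      rw [this, div_neg]
    simp_rw [e2] at this
    rw [integral_neg] at this
    linarith
  have hi1 : Integrable (fun s : Set.Icc (-2 : ℝ) 2 => 1 / (4 * b - s.1))
      (P : Measure (Set.Icc (-2 : ℝ) 2)) := by
    apply Integrable.of_bound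
      (by fun_prop : Measurable fun s : Set.Icc (-2 : ℝ) 2 =>
        1 / (4 * b - s.1)).aestronglyMeasurable (1 / (4 * b - 2))
    filter_upwards with s
    have := s.2.2
    rw [Real.norm_eq_abs, abs_of_pos (by have : 0 < 4 * b - s.1 := by linarith
                                         positivity)]
    exact one_div_le_one_div_of_le (by linarith) (by linarith)
  have hi2 : Integrable (fun s : Set.Icc (-2 : ℝ) 2 => 1 / (4 * b + s.1))
      (P : Measure (Set.Icc (-2 : ℝ) 2)) := by
    apply Integrable.of_bound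
      (by fun_prop : Measurable fun s : Set.Icc (-2 : ℝ) 2 =>
        1 / (4 * b + s.1)).aestronglyMeasurable (1 / (4 * b - 2))
    filter_upwards with s
    have := s.2.1
    rw [Real.norm_eq_abs, abs_of_pos (by have : 0 < 4 * b + s.1 := by linarith
                                         positivity)]
    exact one_div_le_one_div_of_le (by linarith) (by linarith)
  have e3 : ∀ s : Set.Icc (-2 : ℝ) 2, 1 / ((1 - s.1 ^ 2 / 16) + w) =
      2 / b * (1 / (4 * b - s.1) + 1 / (4 * b + s.1)) := by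
    intro s
    have h1 : 0 < 4 * b - s.1 := by linarith [s.2.2]
    have h2 : 0 < 4 * b + s.1 := by linarith [s.2.1]
    have h3 : (1 - s.1 ^ 2 / 16) + w = (4 * b - s.1) * (4 * b + s.1) / 16 := by
      have : (4 * b - s.1) * (4 * b + s.1) = 16 * b ^ 2 - s.1 ^ 2 := by ring
      rw [this, hbsq]
      ring
    rw [h3]
    field_simp
    ring
  have hJ : ∫ s, 1 / ((1 - s.1 ^ 2 / 16) + w) ∂(P : Measure (Set.Icc (-2 : ℝ) 2)) = 4 * g := by
    simp_rw [e3]
    rw [integral_const_mul, integral_add hi1 hi2, hJ1, hJ2, hk]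
    field_simp
    ring
  have hi3 : Integrable (fun s : Set.Icc (-2 : ℝ) 2 => 1 / ((1 - s.1 ^ 2 / 16) + w))
      (P : Measure (Set.Icc (-2 : ℝ) 2)) := by
    simp_rw [e3]
    exact (hi1.add hi2).const_mul _
  have hi4 : Integrable (fun s : Set.Icc (-2 : ℝ) 2 => 1 / ((1 - s.1 ^ 2 / 16) + w))
      (Measure.dirac zpt) := by
    apply integrable_dirac
    simp
  rw [integral_add_measure hi3 hi4, hJ, integral_dirac]
  have e5 : 1 / ((1 - (zpt.1 : ℝ) ^ 2 / 16) + w) = g * (4 - g) := by
    have : (zpt.1 : ℝ) = 0 := rfl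
    rw [this]
    have h6 : (1 - (0 : ℝ) ^ 2 / 16) + w = 1 + w := by ring
    rw [h6, h1w, one_div_one_div]
  rw [e5, hR]
  ring

end

end Pool.Agent.H97.FreeProb
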