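import Pool.Agent.H97.FreeProb.Example

/-!
# Uniqueness of the S-transform, and passage from the S-transform to the R-transform
-/

open MeasureTheory Filter Topology
open scoped ENNReal

namespace Pool.Agent.H97.FreeProb

/-- The `ψ`-transform of a law on `[0, ∞)` other than `δ₀` is injective near `0`. -/
lemma psi_inj {μ : Measure ℝ} (hμ : IsPosLaw μ) : ∃ ε : ℝ, 0 < ε ∧ ∀ y₁ y₂ : ℝ, |y₁| < ε →
    |y₂| < ε → ∫ t, y₁ * t / (1 - y₁ * t) ∂μ = ∫ t, y₂ * t / (1 - y₂ * t) ∂μ → y₁ = y₂ := by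
  obtain ⟨⟨hp, L, hL⟩, hpos, hne⟩ := hμ
  have hL' : ∀ᵐ s ∂μ, s ∈ Set.Icc (-L) L := by rw [ae_iff]; exact hL
  have hs0 : ∀ᵐ s ∂μ, 0 ≤ s := by
    rw [ae_iff]
    convert hpos using 2
    ext x
    simp
  have hsL : ∀ᵐ s ∂μ, 0 ≤ s ∧ s ≤ |L| := by
    filter_upwards [hL', hs0] with s h1 h2
    exact ⟨h2, h1.2.trans (le_abs_self L)⟩
  refine ⟨1 / (2 * (|L| + 1)), by positivity, fun y₁ y₂ h1 h2 heq => ?_⟩
  have hD : ∀ y : ℝ, |y| < 1 / (2 * (|L| + 1)) → ∀ s : ℝ, 0 ≤ s → s ≤ |L| →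
      1 / 2 ≤ 1 - y * s := by
    intro y hy s hs1 hs2
    rw [lt_div_iff₀ (by positivity)] at hy
    have h5 : y * s ≤ |y| * s := mul_le_mul_of_nonneg_right (le_abs_self y) hs1
    have h6 : |y| * s ≤ |y| * |L| := mul_le_mul_of_nonneg_left hs2 (abs_nonneg y)
    nlinarith [abs_nonneg y]
  have hint : ∀ y : ℝ, |y| < 1 / (2 * (|L| + 1)) →
      Integrable (fun t => y * t / (1 - y * t)) μ := by
    intro y hy
    apply Integrable.of_bound
      (by fun_prop : Measurable fun t : ℝ => y * t / (1 - y * t)).aestronglyMeasurable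
      (2 * (|y| * |L|))
    filter_upwards [hsL] with s hs
    have h3 := hD y hy s hs.1 hs.2
    have h4 : 0 < 1 - y * s := by linarith
    rw [Real.norm_eq_abs, abs_div, abs_of_pos h4, div_le_iff₀ h4, abs_mul, abs_of_nonneg hs.1]
    have h6 : |y| * s ≤ |y| * |L| := mul_le_mul_of_nonneg_left hs.2 (abs_nonneg y)
    nlinarith [mul_nonneg (abs_nonneg y) (abs_nonneg L)]
  have hint2 : Integrable (fun t => t / ((1 - y₁ * t) * (1 - y₂ * t))) μ := by
    apply Integrable.of_bound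
      (by fun_prop : Measurable fun t : ℝ =>
        t / ((1 - y₁ * t) * (1 - y₂ * t))).aestronglyMeasurable (4 * |L|)
    filter_upwards [hsL] with s hs
    have h3 := hD y₁ h1 s hs.1 hs.2
    have h3' := hD y₂ h2 s hs.1 hs.2
    have h4 : 1 / 4 ≤ (1 - y₁ * s) * (1 - y₂ * s) := by nlinarith
    have h5 : 0 < (1 - y₁ * s) * (1 - y₂ * s) := by linarith
    rw [Real.norm_eq_abs, abs_div, abs_of_pos h5, div_le_iff₀ h5, abs_of_nonneg hs.1]
    nlinarith [abs_nonneg L, hs.2]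
  have hdiff : (y₁ - y₂) * ∫ t, t / ((1 - y₁ * t) * (1 - y₂ * t)) ∂μ = 0 := by
    rw [← integral_const_mul, ← sub_eq_zero.mpr heq, ← integral_sub (hint y₁ h1) (hint y₂ h2)]
    apply integral_congr_ae
    filter_upwards [hsL] with s hs
    have h3 := hD y₁ h1 s hs.1 hs.2
    have h3' := hD y₂ h2 s hs.1 hs.2
    have h4 : 1 - y₁ * s ≠ 0 := by linarith
    have h5 : 1 - y₂ * s ≠ 0 := by linarith
    field_simp
    ring
  have hIpos : ∫ t, t / ((1 - y₁ * t) * (1 - y₂ * t)) ∂μ ≠ 0 := by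
    intro h0
    have hnn : 0 ≤ᵐ[μ] fun t => t / ((1 - y₁ * t) * (1 - y₂ * t)) := by
      filter_upwards [hsL] with s hs
      have h3 := hD y₁ h1 s hs.1 hs.2
      have h3' := hD y₂ h2 s hs.1 hs.2
      have h4 : 0 < 1 - y₁ * s := by linarith
      have h5 : 0 < 1 - y₂ * s := by linarith
      have := hs.1
      simp only [Pi.zero_apply]
      positivity
    have hz := (integral_eq_zero_iff_of_nonneg_ae hnn hint2).mp h0
    have hall : ∀ᵐ t ∂μ, t = 0 := by
      filter_upwards [hz, hsL] with s hz hs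
      have h3 := hD y₁ h1 s hs.1 hs.2
      have h3' := hD y₂ h2 s hs.1 hs.2
      simp only [Pi.zero_apply, div_eq_zero_iff] at hz
      rcases hz with hz | hz
      · exact hz
      · exfalso
        have h4 : 0 < 1 - y₁ * s := by linarith
        have h5 : 0 < 1 - y₂ * s := by linarith
        have := mul_pos h4 h5
        linarith
    apply hne
    ext A hA
    rw [Measure.dirac_apply' _ hA]
    by_cases h0A : (0 : ℝ) ∈ A
    · rw [Set.indicator_of_mem h0A, Pi.one_apply, ← prob_compl_eq_zero_iff hA]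
      refine measure_mono_null ?_ (ae_iff.mp hall)
      intro x hx hx0
      rw [hx0] at hx
      exact hx h0A
    · rw [Set.indicator_of_notMem h0A]
      refine measure_mono_null ?_ (ae_iff.mp hall)
      intro x hx hx0
      rw [hx0] at hx
      exact h0A hx
  rcases mul_eq_zero.mp hdiff with h | h
  · linarith
  · exact absurd h hIpos

lemma chi_tendsto {S : ℝ → ℝ} (hS : ContinuousAt S 0) :
    Tendsto (fun z : ℝ => z / (1 + z) * S z) (𝓝 0) (𝓝 0) := by
  have h1 : Tendsto (fun z : ℝ => z / (1 + z)) (𝓝 0) (𝓝 0) := by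
    have : ContinuousAt (fun z : ℝ => z / (1 + z)) 0 := by
      apply ContinuousAt.div continuousAt_id (by fun_prop)
      norm_num
    have h2 := this.tendsto
    simpa using h2
  have := h1.mul hS.tendsto
  simpa using this

/-- Uniqueness of the S-transform near `0`. -/
lemma IsSTransform.unique {μ : Measure ℝ} (hμ : IsPosLaw μ) {S S' : ℝ → ℝ}
    (h : IsSTransform μ S) (h' : IsSTransform μ S') :
    ∀ᶠ z in 𝓝 (0 : ℝ), z / (1 + z) * S z = z / (1 + z) * S' z := by
  obtain ⟨ε, hε, hinj⟩ := psi_inj hμ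
  have hsmall : ∀ {T : ℝ → ℝ}, ContinuousAt T 0 →
      ∀ᶠ z in 𝓝 (0 : ℝ), |z / (1 + z) * T z| < ε := by
    intro T hT
    have := (chi_tendsto hT).abs
    rw [abs_zero] at this
    exact this.eventually (gt_mem_nhds hε)
  filter_upwards [h.2, h'.2, hsmall h.1, hsmall h'.1] with z h1 h2 h3 h4
  exact hinj _ _ h3 h4 (h1.trans h2.symm)

/-- A law with the same S-transform as `ρ` has the same R-transform as `ρ`. -/
lemma isRTransform_of_isSTransform {ρ ρ' : Measure ℝ} (hρ : IsPosLaw ρ) (hρ' : IsCompactLaw ρ')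
    {R S S' : ℝ → ℝ} (hR : IsRTransform ρ R) (hS : IsSTransform ρ S) (hS' : IsSTransform ρ' S')
    (heq : ∀ᶠ z in 𝓝 (0 : ℝ), z / (1 + z) * S z = z / (1 + z) * S' z) :
    IsRTransform ρ' R := by
  obtain ⟨ε, hε, hinj⟩ := psi_inj hρ
  obtain ⟨⟨hp, L, hL⟩, _, _⟩ := hρ
  obtain ⟨hp', L', hL'⟩ := hρ'
  refine ⟨hR.1, ?_⟩
  have hz0 : Tendsto (fun z : ℝ => z) (𝓝[≠] 0) (𝓝 0) := nhdsWithin_le_nhds
  have hRlim : Tendsto R (𝓝[≠] 0) (𝓝 (R 0)) := hR.1.tendsto.mono_left nhdsWithin_le_nhds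
  have hzR : Tendsto (fun z => z * R z) (𝓝[≠] 0) (𝓝 0) := by
    have := hz0.mul hRlim
    simpa using this
  have hlarge : ∀ A : ℝ, ∀ᶠ z in 𝓝[≠] (0 : ℝ), A < |R z + 1 / z| := by
    intro A
    rw [← nhdsLT_sup_nhdsGT, eventually_sup]
    constructor
    · filter_upwards [large_left hR.1 (-A)] with z hz
      have := neg_abs_le (R z + 1 / z)
      linarith
    · filter_upwards [large_right hR.1 A] with z hz
      exact hz.trans_le (le_abs_self _)
  have hsmall : ∀ᶠ z in 𝓝 (0 : ℝ), |z / (1 + z) * S z| < ε := by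
    have := (chi_tendsto hS.1).abs
    rw [abs_zero] at this
    exact this.eventually (gt_mem_nhds hε)
  filter_upwards [hR.2, hlarge L, hlarge L', hlarge (1 / ε), hlarge 0, hzR.eventually hsmall,
    hzR.eventually hS.2, hzR.eventually hS'.2, hzR.eventually heq, self_mem_nhdsWithin]
    with w h1 h2 h3 h4 h5 h6 h7 h8 h9 h10
  have hw : w ≠ 0 := h10
  set K : ℝ := R w + 1 / w with hK
  have hK0 : K ≠ 0 := abs_pos.mp h5
  have hψ := psi_of_cauchy hL h2 hK0 h1
  have hψ' := psi_of_cauchy hL' h3 hK0 rfl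
  have hwK : w * K - 1 = w * R w := by
    rw [hK]
    field_simp
    ring
  have e1 : 1 / K = w * R w / (1 + w * R w) * S (w * R w) := by
    apply hinj
    · rw [abs_div, abs_one, div_lt_iff₀ (abs_pos.mpr hK0)]
      rw [div_lt_iff₀ hε] at h4
      linarith
    · exact h6
    · rw [hψ, h7, hwK]
  have e2 : w * K - 1 = (∫ t, 1 / (K - t) ∂ρ') * K - 1 := by
    rw [← hψ', e1, h9, h8, hwK]
  have e3 : w * K = (∫ t, 1 / (K - t) ∂ρ') * K := by linarith
  exact (mul_right_cancel₀ hK0 e3).symm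

end Pool.Agent.H97.FreeProb
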