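import Pool.Agent.H97.FreeProb.NotReg
import Pool.Agent.H97.FreeProb.Unique

/-!
# Assembly of the counterexample
-/

open MeasureTheory Filter Topology
open scoped ENNReal

namespace Pool.Agent.H97.FreeProb

lemma IsSTransform.congr {μ : Measure ℝ} {R R' : ℝ → ℝ} (h : IsSTransform μ R)
    (heq : ∀ᶠ z in 𝓝 (0 : ℝ), R z = R' z) : IsSTransform μ R' := by
  refine ⟨h.1.congr heq, ?_⟩
  filter_upwards [h.2, heq] with z h1 h2
  rw [← h2]
  exact h1

lemma ne_dirac_of {μ : Measure ℝ} (hμ : IsCompactLaw μ) {R : ℝ → ℝ} (hR : IsRTransform μ R)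
    (hpos : ∀ᶠ z in 𝓝 (0 : ℝ), 0 < R z) : μ ≠ Measure.dirac 0 := by
  rintro rfl
  have := hR.unique hμ isRTransform_dirac
  obtain ⟨z, h1, h2⟩ := (this.and (hpos.filter_mono nhdsWithin_le_nhds)).exists
  rw [h1] at h2
  exact lt_irrefl _ h2

/-- the R-transform of the example in closed form -/
noncomputable def Rf (u : ℝ) : ℝ := 4 - ((4 + u) - Real.sqrt ((4 + u) ^ 2 - 4)) / 2

lemma Rf_continuous : Continuous Rf := by
  unfold Rf
  fun_prop

theorem main : ∃ μ : Measure ℝ, IsPosLaw μ ∧ FreeInfDiv μ ∧ ¬ FreeRegular μ ∧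
    ¬ FreeRegular' μ ∧ (∃ ρ, IsFreeMulConv μ μ ρ) ∧
    ∀ ρ, IsFreeMulConv μ μ ρ → FreeInfDiv ρ := by
  obtain ⟨P, hG⟩ := exists_semicircle
  -- the two kernels
  have hq1 : ∀ s : Set.Icc (-2 : ℝ) 2, (2 : ℝ) ≤ 4 - s.1 ∧ 4 - s.1 ≤ 6 := by
    intro s
    have := s.2.1
    have := s.2.2
    constructor <;> linarith
  have hq2 : ∀ s : Set.Icc (-2 : ℝ) 2, (3 / 4 : ℝ) ≤ 1 - s.1 ^ 2 / 16 ∧
      1 - s.1 ^ 2 / 16 ≤ 1 := by
    intro s
    have := sq_le_four s
    have := sq_nonneg s.1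
    constructor <;> linarith
  have fam1 := fun (c : ℝ) (hc : 0 < c) =>
    exists_lawQ (P : Measure (Set.Icc (-2 : ℝ) 2)) (fun s => 4 - s.1) (by fun_prop)
      (by norm_num : (0 : ℝ) < 2) hq1 4 c hc
  have fam2 := fun (c : ℝ) (hc : 0 < c) =>
    exists_lawQ ((P : Measure (Set.Icc (-2 : ℝ) 2)) + Measure.dirac zpt)
      (fun s => 1 - s.1 ^ 2 / 16) (by fun_prop)
      (by norm_num : (0 : ℝ) < 3 / 4) hq2 16 c hc
  obtain ⟨μ, hμ, hμR, hμpos⟩ := fam1 1 one_pos
  obtain ⟨ρ, hρ, hρR, hρpos⟩ := fam2 1 one_pos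
  have key := fun (u : ℝ) (hu : |u| ≤ 1) => key_identity P hG u _ hu rfl
  set R : ℝ → ℝ := fun z => 4 - ∫ s, 1 / ((4 - s.1) + z) ∂(P : Measure (Set.Icc (-2 : ℝ) 2))
    with hRdef
  set Rρ : ℝ → ℝ := fun z => 16 - ∫ s, 1 / ((1 - s.1 ^ 2 / 16) + z)
        ∂((P : Measure (Set.Icc (-2 : ℝ) 2)) + Measure.dirac zpt) with hRρdef
  have hμR' : IsRTransform μ R := hμR.congr (Eventually.of_forall fun z => by
    rw [hRdef, one_mul])
  have hρR' : IsRTransform ρ Rρ := hρR.congr (Eventually.of_forall fun z => by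
    rw [hRρdef, one_mul])
  have hsmall : ∀ ε : ℝ, 0 < ε → ∀ᶠ z : ℝ in 𝓝 0, |z| < ε := by
    intro ε hε
    have : Tendsto (fun g : ℝ => |g|) (𝓝 0) (𝓝 |0|) := continuous_abs.tendsto 0
    rw [abs_zero] at this
    exact this.eventually (gt_mem_nhds hε)
  have hRRf : ∀ u : ℝ, |u| ≤ 1 → R u = Rf u ∧ 3 ≤ Rf u ∧ Rρ (u / Rf u) = Rf u ^ 2 := by
    intro u hu
    obtain ⟨h1, h2, h3⟩ := key u hu
    have h4 : R u = Rf u := h2
    refine ⟨h4, ?_, ?_⟩
    · rw [← h4]
      exact h1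
    · rw [← h4]
      exact h3
  have hμRf : IsRTransform μ Rf := hμR'.congr (by
    filter_upwards [hsmall 1 one_pos] with z hz
    exact (hRRf z hz.le).1)
  -- positivity
  have hμ0 : μ (Set.Iio 0) = 0 := by
    apply hμpos rfl 1 (by norm_num)
    have hb : ∫ s, 1 / ((4 - s.1) - 1 / 1) ∂(P : Measure (Set.Icc (-2 : ℝ) 2)) ≤
        ∫ _s : Set.Icc (-2 : ℝ) 2, (1 : ℝ) ∂(P : Measure (Set.Icc (-2 : ℝ) 2)) := by
      apply integral_mono_of_nonneg
      · filter_upwards with s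
        have := (hq1 s).1
        have h2 : 0 < (4 - s.1) - 1 / 1 := by linarith
        simp only [Pi.zero_apply]
        positivity
      · exact integrable_const _
      · filter_upwards with s
        have := (hq1 s).1
        have h2 : 1 ≤ (4 - s.1) - 1 / 1 := by linarith
        rw [div_le_one (by linarith)]
        exact h2
    have h1 : ∫ _s : Set.Icc (-2 : ℝ) 2, (1 : ℝ) ∂(P : Measure (Set.Icc (-2 : ℝ) 2)) = 1 := by
      simp
    rw [h1] at hb
    linarith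
  have hρ0 : ρ (Set.Iio 0) = 0 := by
    apply hρpos rfl 2 (by norm_num)
    have hb : ∫ s, 1 / ((1 - s.1 ^ 2 / 16) - 1 / 2)
        ∂((P : Measure (Set.Icc (-2 : ℝ) 2)) + Measure.dirac zpt) ≤
        ∫ _s : Set.Icc (-2 : ℝ) 2, (4 : ℝ)
          ∂((P : Measure (Set.Icc (-2 : ℝ) 2)) + Measure.dirac zpt) := by
      apply integral_mono_of_nonneg
      · filter_upwards with s
        have := (hq2 s).1
        have h2 : 0 < (1 - s.1 ^ 2 / 16) - 1 / 2 := by linarith
        simp only [Pi.zero_apply]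
        positivity
      · exact integrable_const _
      · filter_upwards with s
        have := (hq2 s).1
        have h2 : 1 / 4 ≤ (1 - s.1 ^ 2 / 16) - 1 / 2 := by linarith
        rw [div_le_iff₀ (by linarith)]
        linarith
    have h1 : ∫ _s : Set.Icc (-2 : ℝ) 2, (4 : ℝ)
          ∂((P : Measure (Set.Icc (-2 : ℝ) 2)) + Measure.dirac zpt) = 8 := by
      rw [integral_add_measure (integrable_const _) (integrable_const _)]
      simp
      norm_num
    rw [h1] at hb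
    linarith
  have hRρ0 : 0 < Rρ 0 := by
    have h1 := (hRRf 0 (by simp)).2.2
    have h2 := (hRRf 0 (by simp)).2.1
    rw [zero_div] at h1
    rw [h1]
    positivity
  have hμne : μ ≠ Measure.dirac 0 := ne_dirac_of hμ hμRf (by
    filter_upwards [hsmall 1 one_pos] with z hz
    have := (hRRf z hz.le).2.1
    linarith)
  have hρne : ρ ≠ Measure.dirac 0 := ne_dirac_of hρ hρR'
    (hρR'.1.eventually (lt_mem_nhds hRρ0))
  -- the small solutions
  have hsol : ∀ z : ℝ, ∃ u : ℝ, |z| ≤ 1 → |u| ≤ |z| / 3 ∧ u * Rf u = z := by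
    intro z
    by_cases hz : |z| ≤ 1
    · have hcont : ContinuousOn (fun u => u * Rf u) (Set.Icc (-1) 1) :=
        (continuous_id.mul Rf_continuous).continuousOn
      have hivt := intermediate_value_Icc (by norm_num : (-1 : ℝ) ≤ 1) hcont
      obtain ⟨h1, h2⟩ := abs_le.mp hz
      have e1 := (hRRf 1 (by simp)).2.1
      have e2 := (hRRf (-1) (by simp)).2.1
      obtain ⟨u, hu, huz⟩ := hivt (show z ∈ Set.Icc ((-1) * Rf (-1)) (1 * Rf 1) from
        ⟨by linarith, by linarith⟩)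
      have hu1 : |u| ≤ 1 := abs_le.mpr hu
      have huz : u * Rf u = z := huz
      refine ⟨u, fun _ => ⟨?_, huz⟩⟩
      have e3 := (hRRf u hu1).2.1
      have e4 : |z| = |u| * Rf u := by
        rw [← huz, abs_mul, abs_of_pos (show 0 < Rf u by linarith)]
      rw [e4]
      nlinarith [abs_nonneg u]
    · exact ⟨0, fun h => absurd h hz⟩
  choose U hU using hsol
  have hU0 : U 0 = 0 := by
    have := (hU 0 (by simp)).1
    rw [abs_zero, zero_div] at this
    exact abs_eq_zero.mp (le_antisymm this (abs_nonneg _))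
  have hUlim : Tendsto U (𝓝 0) (𝓝 0) := by
    apply squeeze_zero_norm' (a := fun z : ℝ => |z| / 3)
    · filter_upwards [hsmall 1 one_pos] with z hz
      exact (hU z hz.le).1
    · have : Tendsto (fun z : ℝ => |z| / 3) (𝓝 0) (𝓝 (|0| / 3)) := by
        apply Continuous.tendsto
        fun_prop
      simpa using this
  have hRf0 : Rf 0 ≠ 0 := by
    have := (hRRf 0 (by simp)).2.1
    linarith
  have hSμ : IsSTransform μ (fun z => 1 / Rf (U z)) := by
    apply isSTransform_of hμ hμRf hRf0 hUlim hU0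
    filter_upwards [hsmall 1 one_pos] with z hz
    exact (hU z hz.le).2
  set V : ℝ → ℝ := fun z => U z / Rf (U z) with hVdef
  have hV0 : V 0 = 0 := by simp [hVdef, hU0]
  have hVlim : Tendsto V (𝓝 0) (𝓝 0) := by
    have h1 : Tendsto (fun z => Rf (U z)) (𝓝 0) (𝓝 (Rf 0)) :=
      (Rf_continuous.tendsto 0).comp hUlim
    have : Tendsto V (𝓝 0) (𝓝 (0 / Rf 0)) := hUlim.div h1 hRf0
    rwa [zero_div] at this
  have hUle : ∀ z : ℝ, |z| ≤ 1 → |U z| ≤ 1 := by
    intro z hz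
    have := (hU z hz).1
    linarith
  have hSρ : IsSTransform ρ (fun z => 1 / Rρ (V z)) := by
    apply isSTransform_of hρ hρR' hRρ0.ne' hVlim hV0
    filter_upwards [hsmall 1 one_pos] with z hz
    obtain ⟨h1, h2, h3⟩ := hRRf (U z) (hUle z hz.le)
    rw [hVdef]
    simp only
    rw [h3]
    have h4 : Rf (U z) ≠ 0 := by linarith
    have h5 := (hU z hz.le).2
    have : U z / Rf (U z) * Rf (U z) ^ 2 = U z * Rf (U z) := by
      field_simp
    rw [this, h5]
  have hSρ' : IsSTransform ρ (fun z => 1 / Rf (U z) * (1 / Rf (U z))) := by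
    apply hSρ.congr
    filter_upwards [hsmall 1 one_pos] with z hz
    obtain ⟨h1, h2, h3⟩ := hRRf (U z) (hUle z hz.le)
    rw [hVdef]
    simp only
    rw [h3]
    have h4 : Rf (U z) ≠ 0 := by linarith
    field_simp
  refine ⟨μ, ⟨hμ, hμ0, hμne⟩, ?_, ?_, ?_, ?_, ?_⟩
  · apply freeInfDiv_of_family hμ hμR'
    intro c hc
    obtain ⟨σ, hσ, hσR, _⟩ := fam1 c hc
    exact ⟨σ, hσ, hσR⟩
  · exact not_freeRegular (θ := (P : Measure (Set.Icc (-2 : ℝ) 2))) (q := fun s => 4 - s.1)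
      (q0 := 2) (q1 := 6) (A := 4) hμ (by fun_prop) (by norm_num) hq1 hμR'
  · exact not_freeRegular' (θ := (P : Measure (Set.Icc (-2 : ℝ) 2))) (q := fun s => 4 - s.1)
      (q0 := 2) (q1 := 6) (A := 4) hμ (by fun_prop) (by norm_num) hq1 hμR'
  · exact ⟨ρ, ⟨hμ, hμ0, hμne⟩, ⟨hμ, hμ0, hμne⟩, ⟨hρ, hρ0, hρne⟩, _, _, hSμ, hSμ, hSρ'⟩
  · rintro ρ' ⟨_, _, hρ', S₁, S₂, hS₁, hS₂, hS₁₂⟩
    have hu1 := hSμ.unique ⟨hμ, hμ0, hμne⟩ hS₁
    have hu2 := hSμ.unique ⟨hμ, hμ0, hμne⟩ hS₂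
    have hρ'R : IsRTransform ρ' Rρ := by
      refine isRTransform_of_isSTransform ⟨hρ, hρ0, hρne⟩ hρ'.1 hρR' hSρ' hS₁₂ ?_
      filter_upwards [hu1, hu2, hsmall 1 one_pos] with z h1 h2 h3
      by_cases hz : z = 0
      · rw [hz]
        simp
      · have h4 : 1 + z ≠ 0 := by
          have := (abs_lt.mp h3).1
          linarith
        have h5 : z / (1 + z) ≠ 0 := div_ne_zero hz h4
        have h6 := mul_left_cancel₀ h5 h1
        have h7 := mul_left_cancel₀ h5 h2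
        rw [← h6, ← h7]
    apply freeInfDiv_of_family hρ'.1 hρ'R
    intro c hc
    obtain ⟨σ, hσ, hσR, _⟩ := fam2 c hc
    exact ⟨σ, hσ, hσR⟩

end Pool.Agent.H97.FreeProb
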