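import Pool.Agent.H97.FreeProb.Basic

/-!
# Laws with R-transform `c * (A - ∫ 1 / (q + z) dθ)`
-/

open MeasureTheory Filter Topology
open scoped ENNReal

namespace Pool.Agent.H97.FreeProb

/-- Transfer of `exists_measure` to measures on `ℝ`. -/
theorem exists_law {S : Type} [MeasurableSpace S] (θ : Measure S) [IsFiniteMeasure θ]
    (φ x : S → ℝ) (hφm : Measurable φ) (hxm : Measurable x) (lo hi Φ : ℝ)
    (hφ : ∀ s, 0 ≤ φ s ∧ φ s ≤ Φ) (hx : ∀ s, lo ≤ x s ∧ x s ≤ hi) (a : ℝ) :
    ∃ μ : Measure ℝ, IsCompactLaw μ ∧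
      IsRTransform μ (fun g => a + ∫ s, φ s * (g / (1 - x s * g)) ∂θ) ∧
      (∀ y : ℝ, 0 ≤ y → 0 < y + lo → ∫ s, φ s / (y + x s) ∂θ < a - y → μ (Set.Iio 0) = 0) := by
  obtain ⟨L, Q, δ, hL, hδ, hQ, hpos⟩ := exists_measure θ φ x hφm hxm lo hi Φ hφ hx a
  have hφint : Integrable φ θ := by
    apply Integrable.of_bound hφm.aestronglyMeasurable Φ
    filter_upwards with s
    rw [Real.norm_eq_abs, abs_of_nonneg (hφ s).1]
    exact (hφ s).2
  refine ⟨(Q : Measure (Set.Icc (-L) L)).map Subtype.val, ⟨?_, L, ?_⟩, ⟨?_, ?_⟩, ?_⟩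
  · exact Measure.isProbabilityMeasure_map measurable_subtype_coe.aemeasurable
  · rw [Measure.map_apply measurable_subtype_coe measurableSet_Icc.compl]
    have : (Subtype.val ⁻¹' (Set.Icc (-L) L)ᶜ : Set (Set.Icc (-L) L)) = ∅ := by
      ext t
      simp only [Set.mem_preimage, Set.mem_compl_iff, Set.mem_empty_iff_false, iff_false, not_not]
      exact t.2
    rw [this, measure_empty]
  · -- continuity at zero
    set D : ℝ := |lo| + |hi| + 1 with hD
    have hDpos : 0 < D := by positivity
    have hxD : ∀ s, |x s| ≤ D := by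
      intro s
      have h3 := neg_abs_le lo
      have h4 := le_abs_self hi
      have h5 := abs_nonneg lo
      have h6 := abs_nonneg hi
      have h7 := hx s
      rw [abs_le]
      constructor <;> linarith
    have h0 : (fun g : ℝ => a + ∫ s, φ s * (g / (1 - x s * g)) ∂θ) 0 = a := by simp
    unfold ContinuousAt
    rw [h0]
    set W : ℝ := ∫ s, φ s ∂θ with hW
    have hlim : Tendsto (fun g : ℝ => ∫ s, φ s * (g / (1 - x s * g)) ∂θ) (𝓝 0) (𝓝 0) := by
      apply squeeze_zero_norm' (a := fun g : ℝ => W * (2 * |g|))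
      · have hev : ∀ᶠ g : ℝ in 𝓝 0, |g| < 1 / (2 * D) := by
          have : Tendsto (fun g : ℝ => |g|) (𝓝 0) (𝓝 |0|) := continuous_abs.tendsto 0
          rw [abs_zero] at this
          exact this.eventually (gt_mem_nhds (by positivity))
        filter_upwards [hev] with g hg
        have hg' : |g| * D ≤ 1 / 2 := by
          rw [lt_div_iff₀ (by positivity)] at hg
          linarith
        calc ‖∫ s, φ s * (g / (1 - x s * g)) ∂θ‖ ≤ ∫ s, φ s * (2 * |g|) ∂θ := by
              apply norm_integral_le_of_norm_le (hφint.mul_const _)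
              filter_upwards with s
              rw [norm_mul, Real.norm_eq_abs, Real.norm_eq_abs, abs_of_nonneg (hφ s).1]
              exact mul_le_mul_of_nonneg_left (bound_frac (hxD s) hg').2 (hφ s).1
          _ = W * (2 * |g|) := by rw [integral_mul_const]
      · have : Tendsto (fun g : ℝ => W * (2 * |g|)) (𝓝 0) (𝓝 (W * (2 * |0|))) := by
          apply Continuous.tendsto
          fun_prop
        simpa using this
    have := hlim.const_add a
    rw [add_zero] at this
    exact this
  · have hev : ∀ᶠ g : ℝ in 𝓝[≠] 0, |g| < δ := by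
      have : Tendsto (fun g : ℝ => |g|) (𝓝 0) (𝓝 |0|) := continuous_abs.tendsto 0
      rw [abs_zero] at this
      exact (this.eventually (gt_mem_nhds hδ)).filter_mono nhdsWithin_le_nhds
    filter_upwards [hev, self_mem_nhdsWithin] with g hg hg0
    obtain ⟨h1, h2⟩ := hQ g hg0 hg
    rw [integral_map measurable_subtype_coe.aemeasurable]
    · rw [add_comm _ (1 / g)]
      exact h2
    · exact (by fun_prop : Measurable fun t : ℝ =>
        1 / (((a + ∫ s, φ s * (g / (1 - x s * g)) ∂θ) + 1 / g) - t)).aestronglyMeasurable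
  · intro y hy hylo hlt
    rw [Measure.map_apply measurable_subtype_coe measurableSet_Iio]
    exact hpos y hy hylo hlt

/-- Laws with R-transform `c * (A - ∫ 1 / (q + z) dθ)`. -/
theorem exists_lawQ {S : Type} [MeasurableSpace S] (θ : Measure S) [IsFiniteMeasure θ]
    (q : S → ℝ) (hqm : Measurable q) {q0 q1 : ℝ} (hq0 : 0 < q0) (hq : ∀ s, q0 ≤ q s ∧ q s ≤ q1)
    (A c : ℝ) (hc : 0 < c) :
    ∃ μ : Measure ℝ, IsCompactLaw μ ∧
      IsRTransform μ (fun z => c * (A - ∫ s, 1 / (q s + z) ∂θ)) ∧
      (c = 1 → ∀ y : ℝ, 1 / q0 < y → ∫ s, 1 / (q s - 1 / y) ∂θ < A - y → μ (Set.Iio 0) = 0) := by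
  have hqpos : ∀ s, 0 < q s := fun s => lt_of_lt_of_le hq0 (hq s).1
  have hint0 : Integrable (fun s => 1 / q s) θ := by
    apply Integrable.of_bound (by fun_prop : Measurable fun s => 1 / q s).aestronglyMeasurable
      (1 / q0)
    filter_upwards with s
    rw [Real.norm_eq_abs, abs_of_pos (by have := hqpos s; positivity)]
    exact one_div_le_one_div_of_le hq0 (hq s).1
  obtain ⟨μ, hμ, hR, hpos⟩ := exists_law θ (fun s => c * (1 / q s ^ 2)) (fun s => -(1 / q s))
    (by fun_prop) (by fun_prop) (-(1 / q0)) 0 (c * (1 / q0 ^ 2))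
    (fun s => by
      have h1 := hqpos s
      refine ⟨by positivity, ?_⟩
      apply mul_le_mul_of_nonneg_left _ hc.le
      apply one_div_le_one_div_of_le (by positivity)
      exact pow_le_pow_left₀ hq0.le (hq s).1 2)
    (fun s => by
      have h1 := hqpos s
      refine ⟨neg_le_neg (one_div_le_one_div_of_le hq0 (hq s).1), ?_⟩
      have : 0 < 1 / q s := by positivity
      linarith)
    (c * (A - ∫ s, 1 / q s ∂θ))
  have hintz : ∀ z : ℝ, |z| < q0 / 2 → Integrable (fun s => 1 / (q s + z)) θ := by
    intro z hz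
    apply Integrable.of_bound (by fun_prop : Measurable fun s => 1 / (q s + z)).aestronglyMeasurable
      (1 / (q0 / 2))
    filter_upwards with s
    have h1 := neg_abs_le z
    have h2 := (hq s).1
    have h3 : q0 / 2 ≤ q s + z := by linarith
    rw [Real.norm_eq_abs, abs_of_pos (by have : 0 < q s + z := by linarith
                                         positivity)]
    exact one_div_le_one_div_of_le (by positivity) h3
  refine ⟨μ, hμ, hR.congr ?_, ?_⟩
  · have hev : ∀ᶠ z : ℝ in 𝓝 0, |z| < q0 / 2 := by
      have : Tendsto (fun g : ℝ => |g|) (𝓝 0) (𝓝 |0|) := continuous_abs.tendsto 0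
      rw [abs_zero] at this
      exact this.eventually (gt_mem_nhds (by positivity))
    filter_upwards [hev] with z hz
    have e : ∀ s, c * (1 / q s ^ 2) * (z / (1 - -(1 / q s) * z)) =
        c * (1 / q s - 1 / (q s + z)) := by
      intro s
      have h1 := neg_abs_le z
      have h2 := (hq s).1
      have h3 : 0 < q s + z := by linarith
      have h4 := hqpos s
      have h5 : 1 - -(1 / q s) * z = (q s + z) / q s := by
        field_simp
        ring
      rw [h5]
      field_simp
      ring
    simp_rw [e]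
    rw [integral_const_mul, integral_sub hint0 (hintz z hz)]
    ring
  · rintro rfl y hy hlt
    have hy0 : 0 < y := lt_trans (by positivity) hy
    apply hpos y hy0.le (by linarith)
    have hyq : ∀ s, 0 < q s - 1 / y := by
      intro s
      have h1 : 1 / y < q0 := by
        rw [div_lt_iff₀ hy0]
        rw [div_lt_iff₀ hq0] at hy
        linarith
      linarith [(hq s).1]
    have hinty : Integrable (fun s => 1 / (q s - 1 / y)) θ := by
      have h1 : 1 / y < q0 := by
        rw [div_lt_iff₀ hy0]
        rw [div_lt_iff₀ hq0] at hy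
        linarith
      apply Integrable.of_bound
        (by fun_prop : Measurable fun s => 1 / (q s - 1 / y)).aestronglyMeasurable
        (1 / (q0 - 1 / y))
      filter_upwards with s
      rw [Real.norm_eq_abs, abs_of_pos (by have := hyq s; positivity)]
      exact one_div_le_one_div_of_le (by linarith) (by linarith [(hq s).1])
    have e : ∀ s, 1 * (1 / q s ^ 2) / (y + -(1 / q s)) = 1 / (q s - 1 / y) - 1 / q s := by
      intro s
      have h1 := hqpos s
      have h2 := hyq s
      have h3 : 0 < y * q s - 1 := by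
        have : y * q s - 1 = y * (q s - 1 / y) := by field_simp
        rw [this]
        positivity
      have h4 : y + -(1 / q s) = (y * q s - 1) / q s := by
        field_simp
        ring
      have h5 : q s - 1 / y = (y * q s - 1) / y := by
        field_simp
      rw [h4, h5]
      have h6 : (y * q s - 1) ≠ 0 := h3.ne'
      have h7 : 1 * (1 / q s ^ 2) / ((y * q s - 1) / q s) = 1 / (q s * (y * q s - 1)) := by
        rw [div_div_eq_mul_div, one_mul, pow_two, one_div_mul_eq_div, div_eq_div_iff]
        · field_simp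
        · exact h6
        · exact mul_ne_zero h1.ne' h6
      rw [h7, one_div_div, div_sub_div _ _ h6 h1.ne', div_eq_div_iff (mul_ne_zero h1.ne' h6)
        (mul_ne_zero h6 h1.ne')]
      ring
    simp_rw [e]
    rw [integral_sub hinty hint0]
    linarith

end Pool.Agent.H97.FreeProb
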