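import Mathlib

/-!
# Discrete measures from finite symmetric matrices

Tree-like matrices whose spectral measures at the root converge to the probability measure with
a prescribed R-transform.
-/

open MeasureTheory Filter Topology Matrix
open scoped ENNReal

namespace Pool.Agent.H97.FreeProb

/-- The spectral theorem for real symmetric matrices in plain terms. -/
lemma spectral {I : Type} [Fintype I] [DecidableEq I] (A : Matrix I I ℝ) (hA : A.IsHermitian) :
    ∃ (v : I → I → ℝ) (l : I → ℝ), (∀ j, A *ᵥ v j = l j • v j) ∧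
      (∀ p q, ∑ j, v j p * v j q = if p = q then 1 else 0) ∧
      (∀ j, ∑ p, v j p * v j p = 1) := by
  set b := hA.eigenvectorBasis with hb
  refine ⟨fun j => (b j).ofLp, hA.eigenvalues, fun j => hA.mulVec_eigenvectorBasis j, ?_, ?_⟩
  · intro p q
    have h := b.sum_inner_mul_inner (EuclideanSpace.single p (1 : ℝ)) (EuclideanSpace.single q 1)
    simp only [EuclideanSpace.inner_single_left, EuclideanSpace.inner_single_right, map_one,
      one_mul] at h
    simp only [conj_trivial, mul_one] at h
    rw [h]
    simp [eq_comm]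
  · intro j
    have h := b.orthonormal.1 j
    have h2 : ‖b j‖ ^ 2 = 1 := by rw [h]; norm_num
    rw [EuclideanSpace.norm_sq_eq] at h2
    simpa [sq] using h2

/-- The spectral measure at `r` of a symmetric matrix, with the approximate resolvent formula. -/
lemma spectral_measure {I : Type} [Fintype I] [DecidableEq I] (A : Matrix I I ℝ)
    (hA : A.IsHermitian) (r : I) {L : ℝ}
    (hL : ∀ f : I → ℝ, |∑ p, f p * (A *ᵥ f) p| ≤ L * ∑ p, f p * f p) :
    ∃ P : ProbabilityMeasure (Set.Icc (-L) L),
      (∀ (s : ℝ) (u E : I → ℝ), L < |s| →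
        (∀ p, s * u p - (A *ᵥ u) p = (if p = r then 1 else 0) + E p) →
        |∫ t, 1 / (s - t.1) ∂(P : Measure (Set.Icc (-L) L)) - u r| ≤
          Real.sqrt (∑ p, E p * E p) / (|s| - L)) ∧
      ((∀ f : I → ℝ, 0 ≤ ∑ p, f p * (A *ᵥ f) p) → (P : Measure (Set.Icc (-L) L)) {t | t.1 < 0} = 0)
      := by
  obtain ⟨v, l, h1, h2, h3⟩ := spectral A hA
  have hform : ∀ j, ∑ p, v j p * (A *ᵥ v j) p = l j := by
    intro j
    rw [h1]
    simp only [Pi.smul_apply, smul_eq_mul]
    have : ∀ p, v j p * (l j * v j p) = l j * (v j p * v j p) := fun p => by ring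
    simp only [this, ← Finset.mul_sum, h3, mul_one]
  have hlb : ∀ j, |l j| ≤ L := by
    intro j
    have := hL (v j)
    rwa [hform, h3, mul_one] at this
  have hmem : ∀ j, l j ∈ Set.Icc (-L) L := fun j => abs_le.mp (hlb j)
  set P₀ : Measure (Set.Icc (-L) L) :=
    ∑ j, ENNReal.ofReal (v j r * v j r) • Measure.dirac (⟨l j, hmem j⟩ : Set.Icc (-L) L) with hP₀
  have hprob : IsProbabilityMeasure P₀ := by
    constructor
    rw [hP₀]
    simp only [Measure.coe_finset_sum, Finset.sum_apply, Measure.smul_apply, measure_univ,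
      smul_eq_mul, mul_one]
    rw [← ENNReal.ofReal_sum_of_nonneg (fun j _ => mul_self_nonneg _), h2, if_pos rfl]
    simp
  have hint : ∀ f : Set.Icc (-L) L → ℝ, ∫ t, f t ∂P₀ = ∑ j, v j r * v j r * f ⟨l j, hmem j⟩ := by
    intro f
    rw [hP₀, integral_finsetSum_measure]
    · apply Finset.sum_congr rfl
      intro j _
      rw [integral_smul_measure, integral_dirac]
      rw [ENNReal.toReal_ofReal (mul_self_nonneg _), smul_eq_mul]
    · intro j _
      apply Integrable.smul_measure _ ENNReal.ofReal_ne_top
      exact integrable_dirac (by simp)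
  refine ⟨⟨P₀, hprob⟩, ?_, ?_⟩
  · intro s u E hs hE
    change |∫ t, 1 / (s - t.1) ∂P₀ - u r| ≤ _
    rw [hint]
    -- coefficients
    have hsym : ∀ j, ∑ p, v j p * (A *ᵥ u) p = l j * ∑ p, v j p * u p := by
      intro j
      have e1 : ∑ p, v j p * (A *ᵥ u) p = (v j) ⬝ᵥ (A *ᵥ u) := rfl
      have e2 : (v j) ⬝ᵥ (A *ᵥ u) = (A *ᵥ v j) ⬝ᵥ u := by
        rw [Matrix.dotProduct_mulVec, ← Matrix.mulVec_transpose]
        have : Aᵀ = A := by
          have := hA
          rw [Matrix.IsHermitian] at this
          simpa using this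
        rw [this]
      rw [e1, e2, h1]
      simp [dotProduct, Finset.mul_sum, mul_assoc]
    have hcoef : ∀ j, (s - l j) * ∑ p, v j p * u p = v j r + ∑ p, v j p * E p := by
      intro j
      have : ∑ p, v j p * (s * u p - (A *ᵥ u) p) =
          ∑ p, v j p * ((if p = r then 1 else 0) + E p) := by
        apply Finset.sum_congr rfl
        intro p _
        rw [hE p]
      simp only [mul_sub, Finset.sum_sub_distrib, mul_add, Finset.sum_add_distrib, hsym] at this
      simp only [mul_ite, mul_one, mul_zero, Finset.sum_ite_eq', Finset.mem_univ, if_true] at this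
      rw [← this, sub_mul, Finset.mul_sum, Finset.mul_sum]
      congr 1
      apply Finset.sum_congr rfl
      intro p _
      ring
    have hpos : ∀ j, 0 < |s| - L ∧ |s| - L ≤ |s - l j| := by
      intro j
      refine ⟨by linarith, ?_⟩
      have := abs_sub_abs_le_abs_sub s (l j)
      have := hlb j
      linarith
    have hne : ∀ j, s - l j ≠ 0 := by
      intro j h0
      have := hpos j
      rw [h0, abs_zero] at this
      linarith
    have hur : u r = ∑ j, v j r * ∑ p, v j p * u p := by
      have : ∑ j, v j r * ∑ p, v j p * u p = ∑ p, (∑ j, v j r * v j p) * u p := by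
        simp only [Finset.mul_sum, Finset.sum_mul]
        rw [Finset.sum_comm]
        apply Finset.sum_congr rfl; intro p _
        apply Finset.sum_congr rfl; intro j _
        ring
      rw [this]
      simp [h2]
    have hdiff : ∑ j, v j r * v j r * (1 / (s - l j)) - u r =
        ∑ j, (- v j r / (s - l j)) * (∑ p, v j p * E p) := by
      rw [hur, ← Finset.sum_sub_distrib]
      apply Finset.sum_congr rfl
      intro j _
      have := hcoef j
      have h4 : ∑ p, v j p * u p = (v j r + ∑ p, v j p * E p) / (s - l j) := by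
        rw [eq_div_iff (hne j), mul_comm]; exact this
      rw [h4]
      field_simp [hne j]
      ring
    change |∑ j, v j r * v j r * (1 / (s - l j)) - u r| ≤ _
    rw [hdiff]
    have hE2 : ∑ j, (∑ p, v j p * E p) ^ 2 = ∑ p, E p * E p := by
      have : ∀ j, (∑ p, v j p * E p) ^ 2 = ∑ p, ∑ q, (v j p * v j q) * (E p * E q) := by
        intro j
        rw [sq, Finset.sum_mul_sum]
        apply Finset.sum_congr rfl; intro p _
        apply Finset.sum_congr rfl; intro q _
        ring
      simp only [this]
      rw [Finset.sum_comm]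
      have : ∀ p, ∑ j, ∑ q, (v j p * v j q) * (E p * E q) =
          ∑ q, (∑ j, v j p * v j q) * (E p * E q) := by
        intro p
        rw [Finset.sum_comm]
        apply Finset.sum_congr rfl; intro q _
        rw [Finset.sum_mul]
      simp only [this, h2]
      simp
    have hcs := Finset.sum_mul_sq_le_sq_mul_sq Finset.univ (fun j => - v j r / (s - l j))
      (fun j => ∑ p, v j p * E p)
    rw [hE2] at hcs
    have hv2 : ∑ j, (- v j r / (s - l j)) ^ 2 ≤ 1 / (|s| - L) ^ 2 := by
      have h5 : ∀ j, (- v j r / (s - l j)) ^ 2 ≤ (v j r * v j r) * (1 / (|s| - L) ^ 2) := by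
        intro j
        obtain ⟨a1, a2⟩ := hpos j
        rw [div_pow, neg_sq, ← sq, div_eq_mul_one_div, ← sq_abs (s - l j)]
        apply mul_le_mul_of_nonneg_left _ (sq_nonneg _)
        apply one_div_le_one_div_of_le (by positivity)
        exact pow_le_pow_left₀ a1.le a2 2
      calc ∑ j, (- v j r / (s - l j)) ^ 2 ≤ ∑ j, (v j r * v j r) * (1 / (|s| - L) ^ 2) :=
            Finset.sum_le_sum fun j _ => h5 j
        _ = 1 / (|s| - L) ^ 2 := by rw [← Finset.sum_mul, h2, if_pos rfl, one_mul]
    have hfin : (∑ j, (- v j r / (s - l j)) * (∑ p, v j p * E p)) ^ 2 ≤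
        (Real.sqrt (∑ p, E p * E p) / (|s| - L)) ^ 2 := by
      refine hcs.trans ?_
      rw [div_pow, Real.sq_sqrt (Finset.sum_nonneg fun p _ => mul_self_nonneg _)]
      rw [div_eq_mul_one_div, mul_comm]
      exact mul_le_mul_of_nonneg_left hv2 (Finset.sum_nonneg fun p _ => mul_self_nonneg _)
    apply abs_le_of_sq_le_sq hfin
    have : 0 < |s| - L := by linarith
    positivity
  · intro hnn
    change P₀ {t | t.1 < 0} = 0
    rw [hP₀]
    simp only [Measure.coe_finset_sum, Finset.sum_apply, Measure.smul_apply, smul_eq_mul]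
    apply Finset.sum_eq_zero
    intro j _
    have hl : 0 ≤ l j := by rw [← hform j]; exact hnn _
    have : Measure.dirac (⟨l j, hmem j⟩ : Set.Icc (-L) L) {t | t.1 < 0} = 0 := by
      rw [Measure.dirac_apply' _ (by measurability)]
      simp [hl]
    rw [this, mul_zero]

end Pool.Agent.H97.FreeProb
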