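import Pool.Agent.H97.FreeProb.Example

/-!
# The example is not free regular
-/

open MeasureTheory Filter Topology
open scoped ENNReal

namespace Pool.Agent.H97.FreeProb

lemma lk_integrable {ν : Measure ℝ} (hν0 : ν (Set.Iic 0) = 0)
    (hfin : ∫⁻ x, ENNReal.ofReal (min 1 x) ∂ν < ∞) {z : ℝ} (hz : z < 0) :
    Integrable (fun x => x / (1 - z * x)) ν := by
  have hpos : ∀ᵐ x ∂ν, 0 < x := by
    rw [ae_iff]
    convert hν0 using 2
    ext x
    simp
  have h1 : Integrable (fun x : ℝ => min 1 x) ν := by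
    refine ⟨(by fun_prop : Measurable fun x : ℝ => min 1 x).aestronglyMeasurable, ?_⟩
    rw [hasFiniteIntegral_iff_ofReal]
    · exact hfin
    · filter_upwards [hpos] with x hx
      exact le_min (by norm_num) hx.le
  have hm : Measurable fun x : ℝ => x / (1 - z * x) := by fun_prop
  refine (h1.const_mul (max 1 (1 / (-z)))).mono' hm.aestronglyMeasurable ?_
  filter_upwards [hpos] with x hx
  have hD : 0 < 1 - z * x := by nlinarith
  rw [Real.norm_eq_abs, abs_of_pos (by positivity)]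
  have hz' : 0 < -z := by linarith
  rcases le_total x 1 with h | h
  · rw [min_eq_right h]
    have h2 : x / (1 - z * x) ≤ x := by
      rw [div_le_iff₀ hD]
      nlinarith [mul_pos hz' hx]
    have h3 : x ≤ max 1 (1 / (-z)) * x := by
      have : 1 ≤ max 1 (1 / (-z)) := le_max_left _ _
      nlinarith
    linarith
  · rw [min_eq_left h, mul_one]
    refine le_trans ?_ (le_max_right _ _)
    rw [div_le_div_iff₀ hD hz']
    nlinarith

lemma convex_kernel {x D1 D2 D3 : ℝ} (hx : 0 ≤ x) (h1 : 0 < D1) (h2 : 0 < D2) (h3 : 0 < D3)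
    (h : D1 + D3 = 2 * D2) : x / D2 ≤ (x / D1 + x / D3) / 2 := by
  have e : (x / D1 + x / D3) / 2 - x / D2 = x * ((D1 - D3) ^ 2 / (4 * D1 * D2 * D3)) := by
    have : D2 = (D1 + D3) / 2 := by linarith
    subst this
    field_simp
    ring
  have : 0 ≤ x * ((D1 - D3) ^ 2 / (4 * D1 * D2 * D3)) := by positivity
  linarith

lemma strict_kernel {D1 D2 D3 q : ℝ} (h1 : 0 < D1) (h2 : 0 < D2) (h3 : 0 < D3)
    (h : D1 + D3 = 2 * D2) (hq1 : D1 ≤ q) (hq3 : D3 ≤ q) :
    (D1 - D3) ^ 2 / (4 * q ^ 3) ≤ (1 / D1 + 1 / D3) / 2 - 1 / D2 := by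
  have e : (1 / D1 + 1 / D3) / 2 - 1 / D2 = (D1 - D3) ^ 2 / (4 * (D1 * D2 * D3)) := by
    have : D2 = (D1 + D3) / 2 := by linarith
    subst this
    field_simp
    ring
  rw [e]
  apply div_le_div_of_nonneg_left (sq_nonneg _) (by positivity)
  have hq2 : D2 ≤ q := by linarith
  have : D1 * D2 * D3 ≤ q * q * q := by
    have hq : 0 < q := by linarith
    apply mul_le_mul (mul_le_mul hq1 hq2 h2.le hq.le) hq3 h3.le (by positivity)
  nlinarith

section

variable {S : Type} [MeasurableSpace S] {θ : Measure S} [IsProbabilityMeasure θ]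
    {q : S → ℝ} {q0 q1 A : ℝ}

lemma q_integrable (hqm : Measurable q) (hq : ∀ s, q0 ≤ q s ∧ q s ≤ q1)
    {z : ℝ} (hz : 0 < q0 + z) : Integrable (fun s => 1 / (q s + z)) θ := by
  apply Integrable.of_bound (by fun_prop : Measurable fun s => 1 / (q s + z)).aestronglyMeasurable
    (1 / (q0 + z))
  filter_upwards with s
  have h2 := (hq s).1
  rw [Real.norm_eq_abs, abs_of_pos (by have : 0 < q s + z := by linarith
                                       positivity)]
  exact one_div_le_one_div_of_le hz (by linarith)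

/-- A law with R-transform `A - ∫ 1 / (q + z)` is not free regular. -/
theorem not_freeRegular {μ : Measure ℝ} (hμ : IsCompactLaw μ) (hqm : Measurable q)
    (hq0 : 0 < q0) (hq : ∀ s, q0 ≤ q s ∧ q s ≤ q1)
    (hR : IsRTransform μ (fun z => A - ∫ s, 1 / (q s + z) ∂θ)) : ¬ FreeRegular μ := by
  rintro ⟨_, b, ν, hb, hν0, hfin, R', hR', hev⟩
  have hu := hR.unique hμ hR'
  have hu' : ∀ᶠ z in 𝓝[<] (0 : ℝ), A - ∫ s, 1 / (q s + z) ∂θ = R' z :=
    hu.filter_mono (nhdsWithin_mono _ fun x hx => ne_of_lt hx)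
  have hz : ∀ᶠ z in 𝓝[<] (0 : ℝ), -q0 < z :=
    (lt_mem_nhds (by linarith : -q0 < 0)).filter_mono nhdsWithin_le_nhds
  have hall := (hu'.and hev).and hz
  obtain ⟨l, hl, hsub⟩ := mem_nhdsLT_iff_exists_Ioo_subset.mp hall
  have hl0 : l < 0 := hl
  have f1 := hsub (show (3 * l / 4 : ℝ) ∈ Set.Ioo l 0 from ⟨by linarith, by linarith⟩)
  have f2 := hsub (show (l / 2 : ℝ) ∈ Set.Ioo l 0 from ⟨by linarith, by linarith⟩)
  have f3 := hsub (show (l / 4 : ℝ) ∈ Set.Ioo l 0 from ⟨by linarith, by linarith⟩)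
  obtain ⟨⟨a1, b1⟩, c1⟩ := f1
  obtain ⟨⟨a2, b2⟩, c2⟩ := f2
  obtain ⟨⟨a3, b3⟩, c3⟩ := f3
  have i1 := lk_integrable hν0 hfin (show 3 * l / 4 < 0 by linarith)
  have i2 := lk_integrable hν0 hfin (show l / 2 < 0 by linarith)
  have i3 := lk_integrable hν0 hfin (show l / 4 < 0 by linarith)
  have hpos : ∀ᵐ x ∂ν, 0 < x := by
    rw [ae_iff]
    convert hν0 using 2
    ext x
    simp
  have hconv : ∫ x, x / (1 - l / 2 * x) ∂ν ≤
      ((∫ x, x / (1 - 3 * l / 4 * x) ∂ν) + ∫ x, x / (1 - l / 4 * x) ∂ν) / 2 := by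
    have e : ((∫ x, x / (1 - 3 * l / 4 * x) ∂ν) + ∫ x, x / (1 - l / 4 * x) ∂ν) / 2 =
        ∫ x, (x / (1 - 3 * l / 4 * x) + x / (1 - l / 4 * x)) / 2 ∂ν := by
      rw [integral_div, integral_add i1 i3]
    rw [e]
    apply integral_mono_ae i2 ((i1.add i3).div_const 2)
    filter_upwards [hpos] with x hx
    apply convex_kernel hx.le
    · nlinarith
    · nlinarith
    · nlinarith
    · ring
  have j1 := q_integrable (θ := θ) hqm hq (show 0 < q0 + 3 * l / 4 by linarith)
  have j2 := q_integrable (θ := θ) hqm hq (show 0 < q0 + l / 2 by linarith)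
  have j3 := q_integrable (θ := θ) hqm hq (show 0 < q0 + l / 4 by linarith)
  have hstrict : (l / 2) ^ 2 / (4 * q1 ^ 3) ≤
      ((∫ s, 1 / (q s + 3 * l / 4) ∂θ) + ∫ s, 1 / (q s + l / 4) ∂θ) / 2 -
        ∫ s, 1 / (q s + l / 2) ∂θ := by
    have e : ((∫ s, 1 / (q s + 3 * l / 4) ∂θ) + ∫ s, 1 / (q s + l / 4) ∂θ) / 2 -
        ∫ s, 1 / (q s + l / 2) ∂θ =
        ∫ s, ((1 / (q s + 3 * l / 4) + 1 / (q s + l / 4)) / 2 - 1 / (q s + l / 2)) ∂θ := by
      have j13 : Integrable (fun s => (1 / (q s + 3 * l / 4) + 1 / (q s + l / 4)) / 2) θ :=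
        (j1.add j3).div_const 2
      rw [integral_sub j13 j2, integral_div, integral_add j1 j3]
    have e2 : (l / 2) ^ 2 / (4 * q1 ^ 3) = ∫ _s : S, (l / 2) ^ 2 / (4 * q1 ^ 3) ∂θ := by
      simp
    rw [e, e2]
    apply integral_mono (integrable_const _) (((j1.add j3).div_const 2).sub j2)
    intro s
    obtain ⟨g1, g2⟩ := hq s
    have := strict_kernel (D1 := q s + 3 * l / 4) (D2 := q s + l / 2) (D3 := q s + l / 4)
      (q := q1) (by linarith) (by linarith) (by linarith) (by ring) (by linarith) (by linarith)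
    refine le_trans (le_of_eq ?_) this
    ring
  have hS : Nonempty S := by
    by_contra hne
    rw [not_nonempty_iff] at hne
    have h1 : θ Set.univ = 1 := measure_univ
    have h2 : (Set.univ : Set S) = ∅ := Set.eq_empty_of_isEmpty _
    rw [h2, measure_empty] at h1
    exact zero_ne_one h1
  have hq1 : 0 < q1 := by
    obtain ⟨s⟩ := hS
    have := hq s
    linarith
  have : 0 < (l / 2) ^ 2 / (4 * q1 ^ 3) := by
    have : l ≠ 0 := hl0.ne
    positivity
  rw [← a1] at b1
  rw [← a2] at b2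
  rw [← a3] at b3
  linarith

/-- A law with R-transform `A - ∫ 1 / (q + z)` has a free convolution power which is not carried
by `[0, ∞)`. -/
theorem not_freeRegular' {μ : Measure ℝ} (hμ : IsCompactLaw μ) (hqm : Measurable q)
    (hq0 : 0 < q0) (hq : ∀ s, q0 ≤ q s ∧ q s ≤ q1)
    (hR : IsRTransform μ (fun z => A - ∫ s, 1 / (q s + z) ∂θ)) : ¬ FreeRegular' μ := by
  rintro ⟨_, hall⟩
  have hqpos : ∀ s, 0 < q s := fun s => hq0.trans_le (hq s).1
  set κ1 : ℝ := A - ∫ s, 1 / q s ∂θ with hκ1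
  set κ2 : ℝ := ∫ s, 1 / q s ^ 2 ∂θ with hκ2
  set e : ℝ → ℝ := fun z => ∫ s, 1 / (q s ^ 2 * (q s + z)) ∂θ with he
  have i1 : Integrable (fun s => 1 / q s) θ := by
    have := q_integrable (θ := θ) hqm hq (z := 0) (by linarith)
    simpa using this
  have i2 : Integrable (fun s => 1 / q s ^ 2) θ := by
    apply Integrable.of_bound (by fun_prop : Measurable fun s => 1 / q s ^ 2).aestronglyMeasurable
      (1 / q0 ^ 2)
    filter_upwards with s
    have h2 := hqpos s
    rw [Real.norm_eq_abs, abs_of_pos (by positivity)]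
    exact one_div_le_one_div_of_le (by positivity) (pow_le_pow_left₀ hq0.le (hq s).1 2)
  have hzq : ∀ᶠ z in 𝓝 (0 : ℝ), |z| < q0 / 2 := by
    have : Tendsto (fun g : ℝ => |g|) (𝓝 0) (𝓝 |0|) := continuous_abs.tendsto 0
    rw [abs_zero] at this
    exact this.eventually (gt_mem_nhds (by positivity))
  have hbd : ∀ z : ℝ, |z| < q0 / 2 → ∀ s, 0 < q s + z ∧
      1 / (q s ^ 2 * (q s + z)) ≤ 1 / (q0 ^ 2 * (q0 / 2)) := by
    intro z hz s
    have h1 := neg_abs_le z
    have h2 := (hq s).1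
    have h3 : q0 / 2 ≤ q s + z := by linarith
    refine ⟨by linarith, ?_⟩
    apply one_div_le_one_div_of_le (by positivity)
    exact mul_le_mul (pow_le_pow_left₀ hq0.le h2 2) h3 (by positivity) (by positivity)
  have i3 : ∀ z : ℝ, |z| < q0 / 2 → Integrable (fun s => 1 / (q s ^ 2 * (q s + z))) θ := by
    intro z hz
    apply Integrable.of_bound
      (by fun_prop : Measurable fun s => 1 / (q s ^ 2 * (q s + z))).aestronglyMeasurable
      (1 / (q0 ^ 2 * (q0 / 2)))
    filter_upwards with s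
    obtain ⟨h1, h2⟩ := hbd z hz s
    have h3 := hqpos s
    rw [Real.norm_eq_abs, abs_of_pos (by positivity)]
    exact h2
  have hexp : ∀ z : ℝ, |z| < q0 / 2 →
      A - ∫ s, 1 / (q s + z) ∂θ = κ1 + κ2 * z - z ^ 2 * e z := by
    intro z hz
    have hpt : ∀ s, 1 / (q s + z) = 1 / q s - (1 / q s ^ 2) * z +
        z ^ 2 * (1 / (q s ^ 2 * (q s + z))) := by
      intro s
      have h1 := (hbd z hz s).1
      have h2 := hqpos s
      field_simp
      ring
    have : ∫ s, 1 / (q s + z) ∂θ = (∫ s, 1 / q s ∂θ) - κ2 * z + z ^ 2 * e z := by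
      simp_rw [hpt]
      have i12 : Integrable (fun s => 1 / q s - (1 / q s ^ 2) * z) θ := i1.sub (i2.mul_const z)
      have i33 : Integrable (fun s => z ^ 2 * (1 / (q s ^ 2 * (q s + z)))) θ :=
        (i3 z hz).const_mul _
      rw [integral_add i12 i33, integral_sub i1 (i2.mul_const z), integral_mul_const,
        integral_const_mul]
    rw [this, hκ1]
    ring
  have helim : Tendsto e (𝓝[≠] 0) (𝓝 (e 0)) := by
    refine Tendsto.mono_left ?_ nhdsWithin_le_nhds
    apply tendsto_integral_filter_of_dominated_convergence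
      (bound := fun _ => 1 / (q0 ^ 2 * (q0 / 2)))
    · filter_upwards with z
      exact (by fun_prop : Measurable fun s => 1 / (q s ^ 2 * (q s + z))).aestronglyMeasurable
    · filter_upwards [hzq] with z hz
      filter_upwards with s
      obtain ⟨h1, h2⟩ := hbd z hz s
      have h3 := hqpos s
      rw [Real.norm_eq_abs, abs_of_pos (by positivity)]
      exact h2
    · exact integrable_const _
    · filter_upwards with s
      have h3 := hqpos s
      have : ContinuousAt (fun z : ℝ => 1 / (q s ^ 2 * (q s + z))) 0 := by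
        apply ContinuousAt.div continuousAt_const (by fun_prop)
        positivity
      exact this.tendsto
  have hS : Nonempty S := by
    by_contra hne
    rw [not_nonempty_iff] at hne
    have h1 : θ Set.univ = 1 := measure_univ
    have h2 : (Set.univ : Set S) = ∅ := Set.eq_empty_of_isEmpty _
    rw [h2, measure_empty] at h1
    exact zero_ne_one h1
  have hq1 : 0 < q1 := by
    obtain ⟨s⟩ := hS
    have := hq s
    linarith
  have he0 : 0 < e 0 := by
    have h1 : 1 / (q1 ^ 2 * q1) ≤ e 0 := by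
      have e2 : 1 / (q1 ^ 2 * q1) = ∫ _s : S, 1 / (q1 ^ 2 * q1) ∂θ := by simp
      rw [e2, he]
      apply integral_mono (integrable_const _) (i3 0 (by rw [abs_zero]; positivity))
      intro s
      have h2 := hqpos s
      simp only [add_zero]
      apply one_div_le_one_div_of_le (by positivity)
      exact mul_le_mul (pow_le_pow_left₀ h2.le (hq s).2 2) (hq s).2 h2.le (by positivity)
    have : 0 < 1 / (q1 ^ 2 * q1) := by positivity
    linarith
  have hκ2' : 0 ≤ κ2 := integral_nonneg fun s => by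
    have := hqpos s
    positivity
  -- the choice of `t`
  set M : ℝ := 3 * |κ1| * κ2 + |κ1| ^ 3 + e 0 + 1 with hM
  have hM0 : 0 < M := by positivity
  set t : ℝ := e 0 / (2 * M) with ht
  have ht0 : 0 < t := by positivity
  have ht1 : t ≤ 1 := by
    rw [ht, div_le_one (by positivity)]
    have h1 : 0 ≤ 3 * |κ1| * κ2 := by positivity
    have h2 : 0 ≤ |κ1| ^ 3 := by positivity
    linarith
  have htneg : -(t * e 0) + 3 * t ^ 2 * κ1 * κ2 + t ^ 3 * κ1 ^ 3 < 0 := by
    have h1 : t * M = e 0 / 2 := by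
      rw [ht]
      field_simp
    have h2 : κ1 ≤ |κ1| := le_abs_self _
    have h3 : κ1 ^ 3 ≤ |κ1| ^ 3 := by
      rw [← abs_pow]
      exact le_abs_self _
    have h4 : 3 * t ^ 2 * κ1 * κ2 ≤ t * (t * (3 * |κ1| * κ2)) := by
      have : t ^ 2 * (κ1 * κ2) ≤ t ^ 2 * (|κ1| * κ2) :=
        mul_le_mul_of_nonneg_left (mul_le_mul_of_nonneg_right h2 hκ2') (sq_nonneg _)
      nlinarith
    have h5 : t ^ 3 * κ1 ^ 3 ≤ t * (t * |κ1| ^ 3) := by
      have h6 : t ^ 3 * κ1 ^ 3 ≤ t ^ 3 * |κ1| ^ 3 := mul_le_mul_of_nonneg_left h3 (by positivity)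
      have h7 : t ^ 3 ≤ t * t := by nlinarith [mul_pos ht0 ht0]
      have h8 : t ^ 3 * |κ1| ^ 3 ≤ t * t * |κ1| ^ 3 :=
        mul_le_mul_of_nonneg_right h7 (by positivity)
      linarith
    have h9 : t * (3 * |κ1| * κ2) + t * |κ1| ^ 3 ≤ e 0 / 2 := by
      rw [← h1, hM]
      nlinarith
    have h10 : t * (t * (3 * |κ1| * κ2) + t * |κ1| ^ 3) ≤ t * (e 0 / 2) :=
      mul_le_mul_of_nonneg_left h9 ht0.le
    nlinarith
  obtain ⟨ρ, ⟨hρ, R', hR', hRρ⟩, hρpos⟩ := hall t ht0
  obtain ⟨hp, L, hL⟩ := hρ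
  have hu := hR.unique hμ hR'
  set T : ℝ → ℝ := fun z => t * (κ1 + κ2 * z - z ^ 2 * e z) with hT
  have hGT : ∀ᶠ z in 𝓝[≠] (0 : ℝ), ∫ s, 1 / ((T z + 1 / z) - s) ∂ρ = z := by
    filter_upwards [hRρ.2, hu, hzq.filter_mono nhdsWithin_le_nhds] with z h1 h2 h3
    rw [← h2, hexp z h3] at h1
    exact h1
  have hz0 : Tendsto (fun z : ℝ => z) (𝓝[≠] 0) (𝓝 0) := nhdsWithin_le_nhds
  have hTlim : Tendsto T (𝓝[≠] 0) (𝓝 (t * κ1)) := by
    have := (((tendsto_const_nhds (x := κ1)).add (hz0.const_mul κ2)).sub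
      ((hz0.pow 2).mul helim)).const_mul t
    simpa using this
  have hlarge : ∀ᶠ z in 𝓝[≠] (0 : ℝ), 2 * |L| + 1 < |T z + 1 / z| := by
    have h1 : Tendsto (fun z : ℝ => |1 / z|) (𝓝[≠] 0) atTop := by
      have := tendsto_norm_inv_nhdsNE_zero_atTop (α := ℝ)
      simpa using this
    have h2 : ∀ᶠ z in 𝓝[≠] (0 : ℝ), |T z| < |t * κ1| + 1 :=
      hTlim.abs.eventually (gt_mem_nhds (by linarith))
    filter_upwards [h1.eventually_gt_atTop (2 * |L| + 1 + |t * κ1| + 1), h2] with z h3 h4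
    have h5 := abs_sub_abs_le_abs_sub (1 / z) (-(T z))
    rw [sub_neg_eq_add, abs_neg, add_comm (1 / z)] at h5
    linarith
  have hL' : ∀ᵐ s ∂ρ, s ∈ Set.Icc (-L) L := by rw [ae_iff]; exact hL
  have hs0 : ∀ᵐ s ∂ρ, 0 ≤ s := by
    rw [ae_iff]
    convert hρpos using 2
    ext x
    simp
  have hsL : ∀ᵐ s ∂ρ, 0 ≤ s ∧ s ≤ |L| := by
    filter_upwards [hL', hs0] with s h1 h2
    exact ⟨h2, h1.2.trans (le_abs_self L)⟩
  set m1 : ℝ := ∫ s, s ∂ρ with hm1
  set m2 : ℝ := ∫ s, s ^ 2 ∂ρ with hm2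
  have k1 : Integrable (fun s : ℝ => s) ρ := by
    apply Integrable.of_bound measurable_id.aestronglyMeasurable |L|
    filter_upwards [hsL] with s hs
    rw [Real.norm_eq_abs, id, abs_of_nonneg hs.1]
    exact hs.2
  have k2 : Integrable (fun s : ℝ => s ^ 2) ρ := by
    apply Integrable.of_bound (by fun_prop : Measurable fun s : ℝ => s ^ 2).aestronglyMeasurable
      (|L| ^ 2)
    filter_upwards [hsL] with s hs
    rw [Real.norm_eq_abs, abs_of_nonneg (by positivity)]
    exact pow_le_pow_left₀ hs.1 hs.2 2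
  -- the basic expansion
  have hmain : ∀ᶠ z in 𝓝[≠] (0 : ℝ), ∃ E : ℝ, 0 ≤ E ∧ E ≤ 2 * |L| ^ 3 ∧ 0 < 1 + z * T z ∧
      T z * (1 + z * T z) = m1 + m2 * (z / (1 + z * T z)) + (z / (1 + z * T z)) ^ 2 * E := by
    have hDlim : Tendsto (fun z => 1 + z * T z) (𝓝[≠] 0) (𝓝 1) := by
      have := (tendsto_const_nhds (x := (1 : ℝ))).add (hz0.mul hTlim)
      simpa using this
    filter_upwards [hGT, hlarge, self_mem_nhdsWithin,
      hDlim.eventually (lt_mem_nhds (by norm_num : (0 : ℝ) < 1))] with z h1 h2 h3 h4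
    have h3 : z ≠ 0 := h3
    set K : ℝ := T z + 1 / z with hK
    have hK0 : K ≠ 0 := by
      intro h0
      rw [h0, abs_zero] at h2
      have := abs_nonneg L
      linarith
    have hKz : K * z = 1 + z * T z := by
      rw [hK]
      field_simp
      ring
    have hyK : z / (1 + z * T z) = 1 / K := by
      rw [← hKz]
      field_simp
    have hψ := psi_of_cauchy hL (by have := le_abs_self L; have := abs_nonneg L; linarith) hK0 h1
    rw [hyK]
    set y : ℝ := 1 / K with hy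
    have hy0 : y ≠ 0 := one_div_ne_zero hK0
    have hyL : |y| * |L| ≤ 1 / 2 := by
      rw [hy, abs_div, abs_one, div_mul_eq_mul_div, one_mul, div_le_iff₀ (abs_pos.mpr hK0)]
      linarith
    have hD : ∀ s : ℝ, 0 ≤ s → s ≤ |L| → 1 / 2 ≤ 1 - y * s := by
      intro s hs1 hs2
      have h5 : y * s ≤ |y| * s := mul_le_mul_of_nonneg_right (le_abs_self y) hs1
      have h6 : |y| * s ≤ |y| * |L| := mul_le_mul_of_nonneg_left hs2 (abs_nonneg y)
      linarith
    have k3 : Integrable (fun s : ℝ => s ^ 3 / (1 - y * s)) ρ := by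
      apply Integrable.of_bound
        (by fun_prop : Measurable fun s : ℝ => s ^ 3 / (1 - y * s)).aestronglyMeasurable
        (2 * |L| ^ 3)
      filter_upwards [hsL] with s hs
      have h5 := hD s hs.1 hs.2
      have h6 : 0 < 1 - y * s := by linarith
      have h7 := hs.1
      rw [Real.norm_eq_abs, abs_of_nonneg (by positivity), div_le_iff₀ h6]
      have h8 : s ^ 3 ≤ |L| ^ 3 := pow_le_pow_left₀ hs.1 hs.2 3
      have h9 : 0 ≤ |L| ^ 3 := by positivity
      nlinarith
    refine ⟨∫ s, s ^ 3 / (1 - y * s) ∂ρ, ?_, ?_, h4, ?_⟩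
    · apply integral_nonneg_of_ae
      filter_upwards [hsL] with s hs
      have h5 := hD s hs.1 hs.2
      have h6 : 0 < 1 - y * s := by linarith
      have h7 := hs.1
      simp only [Pi.zero_apply]
      positivity
    · have e2 : 2 * |L| ^ 3 = ∫ _s : ℝ, 2 * |L| ^ 3 ∂ρ := by simp
      rw [e2]
      apply integral_mono_ae k3 (integrable_const _)
      filter_upwards [hsL] with s hs
      have h5 := hD s hs.1 hs.2
      have h6 : 0 < 1 - y * s := by linarith
      rw [div_le_iff₀ h6]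
      have h8 : s ^ 3 ≤ |L| ^ 3 := pow_le_pow_left₀ hs.1 hs.2 3
      have h9 : 0 ≤ |L| ^ 3 := by positivity
      nlinarith
    · have e3 : ∫ s, y * s / (1 - y * s) ∂ρ = y * (m1 + m2 * y + y ^ 2 *
          ∫ s, s ^ 3 / (1 - y * s) ∂ρ) := by
        have e4 : y * (m1 + m2 * y + y ^ 2 * ∫ s, s ^ 3 / (1 - y * s) ∂ρ) =
            ∫ s, y * (s + s ^ 2 * y + y ^ 2 * (s ^ 3 / (1 - y * s))) ∂ρ := by
          have k12 : Integrable (fun s : ℝ => s + s ^ 2 * y) ρ := k1.add (k2.mul_const y)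
          have k33 : Integrable (fun s : ℝ => y ^ 2 * (s ^ 3 / (1 - y * s))) ρ := k3.const_mul _
          rw [integral_const_mul, integral_add k12 k33,
            integral_add k1 (k2.mul_const y), integral_mul_const, integral_const_mul]
        rw [e4]
        apply integral_congr_ae
        filter_upwards [hsL] with s hs
        have h5 := hD s hs.1 hs.2
        have h6 : 1 - y * s ≠ 0 := by linarith
        field_simp
        ring
      have e5 : z * K - 1 = z * T z := by
        rw [mul_comm, hKz]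
        ring
      rw [hψ, e5] at e3
      have e6 : y * (T z * (1 + z * T z)) = z * T z := by
        rw [← hKz, hy]
        field_simp
      rw [← e6] at e3
      exact mul_left_cancel₀ hy0 e3
  have hDlim : Tendsto (fun z => 1 + z * T z) (𝓝[≠] 0) (𝓝 1) := by
    have := (tendsto_const_nhds (x := (1 : ℝ))).add (hz0.mul hTlim)
    simpa using this
  have hylim : Tendsto (fun z => z / (1 + z * T z)) (𝓝[≠] 0) (𝓝 0) := by
    have : Tendsto (fun z => z / (1 + z * T z)) (𝓝[≠] 0) (𝓝 (0 / 1)) :=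
      hz0.div hDlim one_ne_zero
    rwa [zero_div] at this
  -- a choice of `E`
  have hEchoice : ∃ E : ℝ → ℝ, ∀ᶠ z in 𝓝[≠] (0 : ℝ), 0 ≤ E z ∧ E z ≤ 2 * |L| ^ 3 ∧
      0 < 1 + z * T z ∧
      T z * (1 + z * T z) = m1 + m2 * (z / (1 + z * T z)) + (z / (1 + z * T z)) ^ 2 * E z :=
    hmain.choice
  obtain ⟨E, hE⟩ := hEchoice
  have hyE : Tendsto (fun z => z / (1 + z * T z) * E z) (𝓝[≠] 0) (𝓝 0) := by
    apply squeeze_zero_norm' (a := fun z => |z / (1 + z * T z)| * (2 * |L| ^ 3))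
    · filter_upwards [hE] with z hz
      rw [norm_mul, Real.norm_eq_abs, Real.norm_eq_abs, abs_of_nonneg hz.1]
      exact mul_le_mul_of_nonneg_left hz.2.1 (abs_nonneg _)
    · have := hylim.abs.mul_const (2 * |L| ^ 3)
      simpa using this
  -- the first moment
  have hm1' : m1 = t * κ1 := by
    have l1 : Tendsto (fun z => T z * (1 + z * T z)) (𝓝[≠] 0) (𝓝 (t * κ1)) := by
      have := hTlim.mul hDlim
      simpa using this
    have l2 : Tendsto (fun z => T z * (1 + z * T z)) (𝓝[≠] 0) (𝓝 m1) := by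
      have l3 : Tendsto (fun z => m1 + m2 * (z / (1 + z * T z)) +
          (z / (1 + z * T z)) * ((z / (1 + z * T z)) * E z)) (𝓝[≠] 0) (𝓝 m1) := by
        have := ((tendsto_const_nhds (x := m1)).add (hylim.const_mul m2)).add (hylim.mul hyE)
        simpa using this
      refine l3.congr' ?_
      filter_upwards [hE] with z hz
      rw [hz.2.2.2]
      ring
    exact tendsto_nhds_unique l2 l1
  -- the second moment
  have hm2' : m2 = t * κ2 + t ^ 2 * κ1 ^ 2 := by
    have l1 : Tendsto (fun z => t * (κ2 - z * e z) + T z ^ 2) (𝓝[≠] 0)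
        (𝓝 (t * κ2 + t ^ 2 * κ1 ^ 2)) := by
      have := (((tendsto_const_nhds (x := κ2)).sub (hz0.mul helim)).const_mul t).add (hTlim.pow 2)
      simpa [mul_pow] using this
    have l2 : Tendsto (fun z => m2 * (1 / (1 + z * T z)) +
        1 / (1 + z * T z) * (z / (1 + z * T z) * E z)) (𝓝[≠] 0) (𝓝 m2) := by
      have h1 : Tendsto (fun z => 1 / (1 + z * T z)) (𝓝[≠] 0) (𝓝 1) := by
        have : Tendsto (fun z => 1 / (1 + z * T z)) (𝓝[≠] 0) (𝓝 (1 / 1)) :=
          tendsto_const_nhds.div hDlim one_ne_zero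
        rwa [div_one] at this
      have := (h1.const_mul m2).add (h1.mul hyE)
      simpa using this
    refine tendsto_nhds_unique l2 (l1.congr' ?_)
    filter_upwards [hE, self_mem_nhdsWithin] with z hz hz0
    have hz0 : z ≠ 0 := hz0
    have h1 := hz.2.2.2
    have h2 : 1 + z * T z ≠ 0 := hz.2.2.1.ne'
    rw [hm1'] at h1
    have h3 : z * (t * (κ2 - z * e z) + T z ^ 2) = T z * (1 + z * T z) - t * κ1 := by
      have : T z = t * κ1 + t * (κ2 * z - z ^ 2 * e z) := by
        simp only [hT]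
        ring
      have h4 : z * (t * (κ2 - z * e z)) = T z - t * κ1 := by
        rw [this]
        ring
      rw [mul_add, h4]
      ring
    apply mul_left_cancel₀ hz0
    rw [h3, h1]
    field_simp
    ring
  -- the third moment
  have hthird : 0 ≤ -(t * e 0) + 3 * t ^ 2 * κ1 * κ2 + t ^ 3 * κ1 ^ 3 := by
    have h1 : Tendsto (fun z => T z / (1 + z * T z)) (𝓝[≠] 0) (𝓝 (t * κ1)) := by
      have : Tendsto (fun z => T z / (1 + z * T z)) (𝓝[≠] 0) (𝓝 (t * κ1 / 1)) :=
        hTlim.div hDlim one_ne_zero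
      rwa [div_one] at this
    have l1 : Tendsto (fun z => -(t * e z) + t * κ2 * (T z / (1 + z * T z)) +
        t * (κ2 - z * e z) * (T z + t * κ1) + t ^ 2 * κ1 ^ 2 * (T z / (1 + z * T z))) (𝓝[≠] 0)
        (𝓝 (-(t * e 0) + t * κ2 * (t * κ1) + t * (κ2 - 0 * e 0) * (t * κ1 + t * κ1) +
          t ^ 2 * κ1 ^ 2 * (t * κ1))) := by
      exact (((helim.const_mul t).neg.add (h1.const_mul _)).add
        ((((tendsto_const_nhds (x := κ2)).sub (hz0.mul helim)).const_mul t).mul
          (hTlim.add_const _))).add (h1.const_mul _)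
    have h2 : -(t * e 0) + 3 * t ^ 2 * κ1 * κ2 + t ^ 3 * κ1 ^ 3 =
        (-(t * e 0) + t * κ2 * (t * κ1) + t * (κ2 - 0 * e 0) * (t * κ1 + t * κ1) +
          t ^ 2 * κ1 ^ 2 * (t * κ1)) := by ring
    rw [h2]
    apply ge_of_tendsto l1
    filter_upwards [hE, self_mem_nhdsWithin] with z hz hz0
    have hz0 : z ≠ 0 := hz0
    have h3 := hz.2.2.2
    have h4 : 0 < 1 + z * T z := hz.2.2.1
    have h4' : 1 + z * T z ≠ 0 := h4.ne'
    rw [hm1', hm2'] at h3
    have hTz : T z - t * κ1 = z * (t * (κ2 - z * e z)) := by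
      simp only [hT]
      ring
    have h5 : z ^ 2 * (-(t * e z) + t * κ2 * (T z / (1 + z * T z)) +
        t * (κ2 - z * e z) * (T z + t * κ1) + t ^ 2 * κ1 ^ 2 * (T z / (1 + z * T z))) =
        (z / (1 + z * T z)) ^ 2 * E z := by
      have h6 : (z / (1 + z * T z)) ^ 2 * E z = T z * (1 + z * T z) - t * κ1 -
          (t * κ2 + t ^ 2 * κ1 ^ 2) * (z / (1 + z * T z)) := by linarith
      rw [h6]
      have h7 : z / (1 + z * T z) = z - z * z * (T z / (1 + z * T z)) := by
        field_simp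
        ring
      rw [h7]
      generalize T z / (1 + z * T z) = w
      have h8 : T z = t * κ1 + z * (t * (κ2 - z * e z)) := by linarith
      rw [h8]
      ring
    have h9 : 0 < z ^ 2 := by positivity
    have h10 : 0 ≤ (z / (1 + z * T z)) ^ 2 * E z := mul_nonneg (sq_nonneg _) hz.1
    rw [← h5] at h10
    exact nonneg_of_mul_nonneg_right h10 h9
  linarith

end

end Pool.Agent.H97.FreeProb
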