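import Pool.Agent.H97.FreeProb.Model

/-!
# Tree matrices
-/

open MeasureTheory Filter Topology Matrix
open scoped ENNReal

namespace Pool.Agent.H97.FreeProb

section step

variable {ι I : Type} [Fintype ι] [DecidableEq ι] [Fintype I] [DecidableEq I]

/-- Joining copies of `A` (one for each `i`, perturbed by `x i` at the root) to a new root. -/
def joinM (e x : ι → ℝ) (a : ℝ) (A : Matrix I I ℝ) (r : I) :
    Matrix (Option (ι × I)) (Option (ι × I)) ℝ
  | none, none => a
  | none, some (i, p) => if p = r then e i else 0
  | some (i, p), none => if p = r then e i else 0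
  | some (i, p), some (j, q) => if i = j then A p q + (if p = r ∧ q = r then x i else 0) else 0

lemma joinM_isHermitian (e x : ι → ℝ) (a : ℝ) (A : Matrix I I ℝ) (r : I) (hA : A.IsHermitian) :
    (joinM e x a A r).IsHermitian := by
  have hA' : ∀ p q, A p q = A q p := by
    intro p q
    have := hA.apply q p
    simpa using this
  apply Matrix.IsHermitian.ext
  rintro (_ | ⟨i, p⟩) (_ | ⟨j, q⟩)
  · simp [joinM]
  · simp [joinM]
  · simp [joinM]
  · simp only [joinM, star_trivial]
    by_cases h : i = j
    · subst h
      simp only [if_true]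
      rw [hA' q p]
      by_cases h1 : p = r <;> by_cases h2 : q = r <;> simp [h1, h2]
    · rw [if_neg h, if_neg (Ne.symm h)]

lemma joinM_mulVec_none (e x : ι → ℝ) (a : ℝ) (A : Matrix I I ℝ) (r : I)
    (f : Option (ι × I) → ℝ) :
    (joinM e x a A r *ᵥ f) none = a * f none + ∑ i, e i * f (some (i, r)) := by
  simp only [mulVec, dotProduct, Fintype.sum_option, joinM, Fintype.sum_prod_type]
  congr 1
  apply Finset.sum_congr rfl
  intro i _
  simp

lemma joinM_mulVec_some (e x : ι → ℝ) (a : ℝ) (A : Matrix I I ℝ) (r : I)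
    (f : Option (ι × I) → ℝ) (i : ι) (p : I) :
    (joinM e x a A r *ᵥ f) (some (i, p)) = (if p = r then e i * f none else 0) +
      (A *ᵥ (fun q => f (some (i, q)))) p + (if p = r then x i * f (some (i, r)) else 0) := by
  simp only [mulVec, dotProduct, Fintype.sum_option, joinM, Fintype.sum_prod_type]
  have h1 : ∑ j, ∑ q, (if i = j then A p q + (if p = r ∧ q = r then x i else 0) else 0) *
      f (some (j, q)) = ∑ q, (A p q + (if p = r ∧ q = r then x i else 0)) * f (some (i, q)) := by
    rw [Finset.sum_eq_single i]
    · simp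
    · intro j _ hj
      simp [Ne.symm hj]
    · simp
  rw [h1]
  simp only [add_mul, Finset.sum_add_distrib]
  by_cases hp : p = r
  · subst hp
    simp [add_assoc]
  · simp [hp]

lemma joinM_form (e x : ι → ℝ) (a : ℝ) (A : Matrix I I ℝ) (r : I)
    (f : Option (ι × I) → ℝ) :
    ∑ p, f p * (joinM e x a A r *ᵥ f) p = a * f none ^ 2 +
      ∑ i, (2 * e i * f none * f (some (i, r)) + x i * f (some (i, r)) ^ 2 +
        ∑ p, f (some (i, p)) * (A *ᵥ (fun q => f (some (i, q)))) p) := by
  rw [Fintype.sum_option, joinM_mulVec_none, Fintype.sum_prod_type]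
  have h1 : ∀ i, ∑ p, f (some (i, p)) * (joinM e x a A r *ᵥ f) (some (i, p)) =
      e i * f none * f (some (i, r)) + x i * f (some (i, r)) ^ 2 +
        ∑ p, f (some (i, p)) * (A *ᵥ (fun q => f (some (i, q)))) p := by
    intro i
    simp only [joinM_mulVec_some, mul_add, Finset.sum_add_distrib, mul_ite, mul_zero,
      Finset.sum_ite_eq', Finset.mem_univ, if_true]
    ring
  simp only [h1]
  have h2 : ∑ i, (2 * e i * f none * f (some (i, r)) + x i * f (some (i, r)) ^ 2 +
        ∑ p, f (some (i, p)) * (A *ᵥ (fun q => f (some (i, q)))) p) =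
      f none * ∑ i, e i * f (some (i, r)) + ∑ i, (e i * f none * f (some (i, r)) +
        x i * f (some (i, r)) ^ 2 +
        ∑ p, f (some (i, p)) * (A *ᵥ (fun q => f (some (i, q)))) p) := by
    rw [Finset.mul_sum, ← Finset.sum_add_distrib]
    apply Finset.sum_congr rfl
    intro i _
    ring
  rw [h2]
  ring

lemma joinM_norm (f : Option (ι × I) → ℝ) :
    ∑ p, f p * f p = f none ^ 2 + ∑ i, ∑ p, f (some (i, p)) * f (some (i, p)) := by
  rw [Fintype.sum_option, Fintype.sum_prod_type, sq]

end step

/-- The tree matrices. -/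
lemma exists_tree {ι : Type} [Fintype ι] [DecidableEq ι] (e x : ι → ℝ) (a B L : ℝ)
    (hx : ∀ i, |x i| ≤ B) (hB : 0 ≤ B) (hL : |a| + B + ∑ i, e i ^ 2 + 1 ≤ L) (K : ℕ) :
    ∃ (I : Type) (_ : Fintype I) (_ : DecidableEq I) (A : Matrix I I ℝ) (r : I),
      A.IsHermitian ∧
      (∀ f : I → ℝ, |∑ p, f p * (A *ᵥ f) p| ≤ L * (∑ p, f p * f p) - (B + 1) * f r ^ 2) ∧
      (∀ y : ℝ, (∀ i, 0 < y + x i) → ∑ i, e i ^ 2 / (y + x i) ≤ a - y →
        ∀ f : I → ℝ, y * f r ^ 2 ≤ ∑ p, f p * (A *ᵥ f) p) ∧
      (∀ g : ℝ, g ≠ 0 → (∀ i, 1 - x i * g ≠ 0) → ∃ u E : I → ℝ, u r = g ∧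
        (∀ p, (1 / g + a + ∑ i, e i ^ 2 * (g / (1 - x i * g))) * u p - (A *ᵥ u) p =
          (if p = r then 1 else 0) + E p) ∧
        ∑ p, E p * E p = (∑ i, e i ^ 2 * (g / (1 - x i * g)) ^ 2) ^ K *
          (g * ∑ i, e i ^ 2 * (g / (1 - x i * g))) ^ 2) := by
  induction K with
  | zero =>
    refine ⟨Unit, inferInstance, inferInstance, fun _ _ => a, (), ?_, ?_, ?_, ?_⟩
    · apply Matrix.IsHermitian.ext
      intro i j
      simp
    · intro f
      simp only [Finset.univ_unique, PUnit.default_eq_unit, Finset.sum_singleton, mulVec,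
        dotProduct]
      have h1 : |f () * (a * f ())| = |a| * f () ^ 2 := by
        rw [show f () * (a * f ()) = a * f () ^ 2 by ring, abs_mul,
          abs_of_nonneg (sq_nonneg (f ()))]
      rw [h1]
      have h2 : 0 ≤ ∑ i, e i ^ 2 := Finset.sum_nonneg fun i _ => sq_nonneg _
      nlinarith [sq_nonneg (f ())]
    · intro y hy hya f
      simp only [Finset.univ_unique, PUnit.default_eq_unit, Finset.sum_singleton, mulVec,
        dotProduct]
      have h2 : 0 ≤ ∑ i, e i ^ 2 / (y + x i) :=
        Finset.sum_nonneg fun i _ => div_nonneg (sq_nonneg _) (hy i).le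
      nlinarith [sq_nonneg (f ())]
    · intro g hg hgx
      refine ⟨fun _ => g, fun _ => g * ∑ i, e i ^ 2 * (g / (1 - x i * g)), rfl, ?_, ?_⟩
      · intro p
        simp only [Finset.univ_unique, PUnit.default_eq_unit, Finset.sum_singleton, mulVec,
          dotProduct, if_true]
        field_simp
        ring
      · simp only [Finset.univ_unique, PUnit.default_eq_unit, Finset.sum_singleton]
        ring
  | succ K ih =>
    obtain ⟨I, _, _, A, r, hA, hbd, hpos, hres⟩ := ih
    refine ⟨Option (ι × I), inferInstance, inferInstance, joinM e x a A r, none,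
      joinM_isHermitian e x a A r hA, ?_, ?_, ?_⟩
    · intro f
      rw [joinM_form, joinM_norm]
      set f0 := f none with hf0
      have h1 : ∀ i, |2 * e i * f0 * f (some (i, r)) + x i * f (some (i, r)) ^ 2 +
          ∑ p, f (some (i, p)) * (A *ᵥ (fun q => f (some (i, q)))) p| ≤
          e i ^ 2 * f0 ^ 2 + L * ∑ p, f (some (i, p)) * f (some (i, p)) := by
        intro i
        have a1 : |2 * e i * f0 * f (some (i, r))| ≤ e i ^ 2 * f0 ^ 2 + f (some (i, r)) ^ 2 := by
          rw [abs_le]
          constructor <;> nlinarith [sq_nonneg (e i * f0 + f (some (i, r))),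
            sq_nonneg (e i * f0 - f (some (i, r)))]
        have a2 : |x i * f (some (i, r)) ^ 2| ≤ B * f (some (i, r)) ^ 2 := by
          rw [abs_mul, abs_of_nonneg (sq_nonneg (f (some (i, r))))]
          exact mul_le_mul_of_nonneg_right (hx i) (sq_nonneg _)
        have a3 := hbd (fun q => f (some (i, q)))
        have a4 := abs_add_three (2 * e i * f0 * f (some (i, r))) (x i * f (some (i, r)) ^ 2)
          (∑ p, f (some (i, p)) * (A *ᵥ (fun q => f (some (i, q)))) p)
        linarith
      have h2 : |∑ i, (2 * e i * f0 * f (some (i, r)) + x i * f (some (i, r)) ^ 2 +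
          ∑ p, f (some (i, p)) * (A *ᵥ (fun q => f (some (i, q)))) p)| ≤
          (∑ i, e i ^ 2) * f0 ^ 2 + L * ∑ i, ∑ p, f (some (i, p)) * f (some (i, p)) := by
        refine (Finset.abs_sum_le_sum_abs _ _).trans ?_
        refine (Finset.sum_le_sum fun i _ => h1 i).trans (le_of_eq ?_)
        rw [Finset.sum_add_distrib, Finset.sum_mul, Finset.mul_sum]
      have h3 : |a * f0 ^ 2| = |a| * f0 ^ 2 := by
        rw [abs_mul, abs_of_nonneg (sq_nonneg f0)]
      have h4 := abs_add_le (a * f0 ^ 2) (∑ i, (2 * e i * f0 * f (some (i, r)) +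
        x i * f (some (i, r)) ^ 2 +
          ∑ p, f (some (i, p)) * (A *ᵥ (fun q => f (some (i, q)))) p))
      have h5 : (|a| + B + ∑ i, e i ^ 2 + 1) * f0 ^ 2 ≤ L * f0 ^ 2 :=
        mul_le_mul_of_nonneg_right hL (sq_nonneg _)
      nlinarith
    · intro y hy hya f
      rw [joinM_form]
      set f0 := f none with hf0
      have h1 : ∀ i, -(e i ^ 2 / (y + x i)) * f0 ^ 2 ≤
          2 * e i * f0 * f (some (i, r)) + x i * f (some (i, r)) ^ 2 +
          ∑ p, f (some (i, p)) * (A *ᵥ (fun q => f (some (i, q)))) p := by
        intro i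
        have a1 := hpos y hy hya (fun q => f (some (i, q)))
        have hyi := hy i
        have a2 : 0 ≤ (y + x i) * (f (some (i, r)) + e i * f0 / (y + x i)) ^ 2 := by positivity
        have a3 : (y + x i) * (f (some (i, r)) + e i * f0 / (y + x i)) ^ 2 =
            (y + x i) * f (some (i, r)) ^ 2 + 2 * e i * f0 * f (some (i, r)) +
              e i ^ 2 / (y + x i) * f0 ^ 2 := by
          field_simp
          ring
        nlinarith
      have h2 := Finset.sum_le_sum fun i (_ : i ∈ Finset.univ) => h1 i
      rw [← Finset.sum_mul] at h2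
      simp only [Finset.sum_neg_distrib] at h2
      nlinarith [sq_nonneg f0]
    · intro g hg hgx
      obtain ⟨u, E, hur, hu, hE⟩ := hres g hg hgx
      set c : ι → ℝ := fun i => g / (1 - x i * g) with hc
      set s : ℝ := 1 / g + a + ∑ i, e i ^ 2 * (g / (1 - x i * g)) with hs
      refine ⟨fun q => match q with
        | none => g
        | some (i, p) => e i * c i * u p, fun q => match q with
        | none => 0
        | some (i, p) => e i * c i * E p, rfl, ?_, ?_⟩
      · rintro (_ | ⟨i, p⟩)
        · rw [joinM_mulVec_none]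
          simp only [if_true, hur, add_zero]
          have : ∑ i, e i * (e i * c i * g) = g * ∑ i, e i ^ 2 * (g / (1 - x i * g)) := by
            rw [Finset.mul_sum]
            apply Finset.sum_congr rfl
            intro i _
            simp only [hc]
            ring
          rw [this, hs]
          field_simp
          ring
        · rw [joinM_mulVec_some]
          simp only [reduceCtorEq, if_false, zero_add]
          have h1 : (A *ᵥ fun q => e i * c i * u q) p = e i * c i * (A *ᵥ u) p := by
            have : (fun q => e i * c i * u q) = (e i * c i) • u := by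
              funext q; simp
            rw [this, Matrix.mulVec_smul]
            simp
          rw [h1]
          have h2 := hu p
          by_cases hp : p = r
          · subst hp
            simp only [if_true] at h2 ⊢
            rw [hur] at h2 ⊢
            have h3 : c i * (1 - x i * g) = g := by
              simp only [hc]
              rw [div_mul_cancel₀ _ (hgx i)]
            linear_combination (e i * c i) * h2 + e i * h3
          · simp only [if_neg hp] at h2 ⊢
            linear_combination (e i * c i) * h2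
      · rw [joinM_norm]
        simp only
        have : ∀ i, ∑ p, e i * c i * E p * (e i * c i * E p) =
            e i ^ 2 * (g / (1 - x i * g)) ^ 2 * ∑ p, E p * E p := by
          intro i
          rw [Finset.mul_sum]
          apply Finset.sum_congr rfl
          intro p _
          simp only [hc]
          ring
        simp only [this, hE, ← Finset.sum_mul]
        ring

end Pool.Agent.H97.FreeProb
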